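import Pool.Agent.KRB.Stmts

/-!
# The Korenblum constant: the pointwise bound
-/

set_option autoImplicit false

namespace Pool.Agent.KRB

open Complex MeasureTheory Set Filter Topology Metric

namespace COREAux

/-- Every point of the circle has an argument near `t₁`. -/
theorem exists_arg {ρ t₁ : ℝ} {w : ℂ} (hw : ‖w‖ = ρ) :
    ∃ t : ℝ, |t - t₁| ≤ Real.pi ∧ w = ρ * cexp (t * I) := by
  refine ⟨t₁ + arg (w * cexp (-(t₁ * I))), ?_, ?_⟩
  · rw [add_sub_cancel_left]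
    exact abs_arg_le_pi _
  · have h1 := norm_mul_exp_arg_mul_I (w * cexp (-(t₁ * I)))
    have h2 : ‖w * cexp (-(t₁ * I))‖ = ρ := by
      rw [norm_mul, hw, show -((t₁ : ℂ) * I) = ((-t₁ : ℝ) : ℂ) * I by push_cast; ring,
        norm_exp_ofReal_mul_I, mul_one]
    rw [h2] at h1
    push_cast
    rw [add_mul, Complex.exp_add]
    have h3 : cexp (-(t₁ * I)) * cexp (t₁ * I) = 1 := by
      rw [← Complex.exp_add, neg_add_cancel, Complex.exp_zero]
    calc w = (w * cexp (-(t₁ * I))) * cexp (t₁ * I) := by rw [mul_assoc, h3, mul_one]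
      _ = (ρ * cexp ((arg (w * cexp (-(t₁ * I))) : ℂ) * I)) * cexp (t₁ * I) := by rw [h1]
      _ = _ := by ring

/-- The Blaschke factor is unimodular on the circle. -/
theorem norm_bl {ρ : ℝ} {a w : ℂ} (hw : ‖w‖ = ρ) :
    ‖(ρ : ℂ) ^ 2 - (starRingEnd ℂ) a * w‖ = ρ * ‖w - a‖ := by
  have h1 : (ρ : ℂ) ^ 2 = w * (starRingEnd ℂ) w := by
    rw [mul_conj, normSq_eq_norm_sq, hw]
    push_cast
    ring
  have h2 : (ρ : ℂ) ^ 2 - (starRingEnd ℂ) a * w = w * (starRingEnd ℂ) (w - a) := by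
    rw [h1, map_sub]
    ring
  rw [h2, norm_mul, norm_conj, hw]

/-- The exponents. -/
theorem expo {q η ρ c₁ d N : ℝ} (hη : 0 < η) (hc : η / 6 ≤ ρ - c₁) (hq : 0 ≤ q)
    (hd : η / 2 ≤ d) (hρ : 0 < ρ) (hN : 40000 * (N + 1) ≤ q * η ^ 2) :
    q * η ^ 2 / 384 ≤ q * ((ρ - c₁) * d / 16) -
      4 * Real.pi * (2 * ρ / (η / 4)) * (N + 1) * (1 - (ρ - d) / ρ) := by
  have hd0 : 0 < d := by linarith
  have h1 : 4 * Real.pi * (2 * ρ / (η / 4)) * (N + 1) * (1 - (ρ - d) / ρ) =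
      32 * Real.pi * (N + 1) * d / η := by
    field_simp
    ring
  have h2 : q * (η / 6 * d / 16) ≤ q * ((ρ - c₁) * d / 16) := by
    apply mul_le_mul_of_nonneg_left _ hq
    have := mul_le_mul_of_nonneg_right hc hd0.le
    linarith
  have h3 : 32 * Real.pi * (N + 1) * d / η ≤ q * η * d * (32 * 3.15 / 40000) := by
    rw [div_le_iff₀ hη]
    have hpi : Real.pi ≤ 3.15 := Real.pi_lt_d2.le
    have hpi0 : 0 ≤ Real.pi := Real.pi_pos.le
    have hqn : 0 ≤ q * η ^ 2 := by positivity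
    have e1 : Real.pi * (N + 1) ≤ Real.pi * (q * η ^ 2 / 40000) := by
      apply mul_le_mul_of_nonneg_left _ hpi0
      linarith
    have e2 : Real.pi * (q * η ^ 2 / 40000) ≤ 3.15 * (q * η ^ 2 / 40000) := by
      apply mul_le_mul_of_nonneg_right hpi
      positivity
    have e3 : Real.pi * (N + 1) * d ≤ 3.15 * (q * η ^ 2 / 40000) * d :=
      mul_le_mul_of_nonneg_right (e1.trans e2) hd0.le
    calc 32 * Real.pi * (N + 1) * d = 32 * (Real.pi * (N + 1) * d) := by ring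
      _ ≤ 32 * (3.15 * (q * η ^ 2 / 40000) * d) := by linarith
      _ = q * η * d * (32 * 3.15 / 40000) * η := by ring
  have h4 : q * η * (η / 2) ≤ q * η * d := by
    apply mul_le_mul_of_nonneg_left hd
    positivity
  rw [h1]
  have h5 : q * (η / 6 * d / 16) = q * η * d / 96 := by ring
  have h6 : q * η * (η / 2) = q * η ^ 2 / 2 := by ring
  have h7 : 0 ≤ q * η ^ 2 := by positivity
  rw [h5] at h2
  rw [h6] at h4
  nlinarith

end COREAux

open COREAux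

theorem core (hM : S_MAXP) (hPT : S_PT) (hR : S_REM) (hPH : S_PH) (hMU : S_MUL)
    (hG : S_GAIN) : S_CORE := by
  intro f g p η ρ N a hp hη hη2 hρ1 hρ2 hN1 hN2 hf hg hfg ha hga hne z₀ hz₀
  obtain ⟨ω, hω, hω2⟩ := hR f g (1 - η) (by linarith) hf hg hne hfg
  have hρ0 : 0 < ρ := by linarith
  have hρlt : ρ < 1 := by linarith
  set q : ℝ := p - 1 with hq
  have hq1 : 1 ≤ q := by linarith
  have hq0 : 0 ≤ q := by linarith
  set t₁ : ℝ := arg z₀ with ht₁
  obtain ⟨u, hu1, hu2⟩ := hPH ω (1 - η) ρ (η / 4) (by linarith) hρ0 (by linarith)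
    (by linarith) hω (fun z h1 h2 => (hω2 z h1 h2).2) t₁
  set A : ℝ := 2 * ρ / (η / 4) with hA
  have hA0 : 0 ≤ A := by positivity
  obtain ⟨Q, ρ', hρ', hQd, hQ1, hQ2⟩ := hMU A ρ t₁ N hA0 hρ0
  set c₁ : ℝ := 1 - 2 / 3 * η with hc₁
  have hc1ρ : c₁ < ρ := by rw [hc₁]; linarith
  have hc1pos : 0 < c₁ := by rw [hc₁]; linarith
  obtain ⟨E, hEd, hE1, hE2⟩ := hG a c₁ ρ (by rw [hc₁]; linarith) hc1ρ (by linarith) hρlt.le
  -- the function `g₂`
  set g₂ : ℂ → ℂ := fun z => dslope g a z * (((ρ : ℂ) ^ 2 - (starRingEnd ℂ) a * z) / ρ) with hg₂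
  have ha1 : a ∈ ball (0 : ℂ) 1 := by
    rw [mem_ball_zero_iff]; linarith
  have hds : DifferentiableOn ℂ (dslope g a) (ball 0 1) :=
    (Complex.differentiableOn_dslope (isOpen_ball.mem_nhds ha1)).2 hg
  have hg₂d : DifferentiableOn ℂ g₂ (ball 0 1) := by
    apply hds.mul
    fun_prop
  have hgd : ∀ z, g z = (z - a) * dslope g a z := by
    intro z
    have := sub_smul_dslope g a z
    rw [hga, sub_zero, smul_eq_mul] at this
    exact this.symm
  have hg₂n : ∀ z, ‖g₂ z‖ * ρ = ‖dslope g a z‖ * ‖(ρ : ℂ) ^ 2 - (starRingEnd ℂ) a * z‖ := by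
    intro z
    simp only [hg₂, norm_mul, norm_div, norm_real, Real.norm_of_nonneg hρ0.le]
    field_simp
  -- the function `h`
  set h : ℂ → ℂ := fun z => (f z - u * g z) * Q z with hh
  set r'' : ℝ := min ρ' 1 with hr''
  have hr1 : ρ < r'' := lt_min hρ' hρlt
  have hsub1 : ball (0 : ℂ) r'' ⊆ ball 0 1 := ball_subset_ball (min_le_right _ _)
  have hsub2 : ball (0 : ℂ) r'' ⊆ ball 0 ρ' := ball_subset_ball (min_le_left _ _)
  have hhd : DifferentiableOn ℂ h (ball 0 r'') :=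
    ((hf.mono hsub1).sub ((hg.mono hsub1).const_mul u)).mul (hQd.mono hsub2)
  -- the averages
  set avg₂ : ℝ := Real.circleAverage (fun w => ‖g₂ w‖ ^ q * ‖h w‖) 0 ρ with havg₂
  set avg : ℝ := Real.circleAverage (fun w => ‖g w‖ ^ q * (‖g w‖ - ‖f w‖)) 0 ρ with havg
  have hsph : ∀ w ∈ sphere (0 : ℂ) |ρ|, ‖w‖ = ρ := by
    intro w hw
    rw [mem_sphere_zero_iff_norm, abs_of_pos hρ0] at hw
    exact hw
  have hsph1 : sphere (0 : ℂ) |ρ| ⊆ ball 0 1 := by
    intro w hw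
    rw [mem_ball_zero_iff, hsph w hw]
    exact hρlt
  have hsphr : sphere (0 : ℂ) |ρ| ⊆ ball 0 r'' := by
    intro w hw
    rw [mem_ball_zero_iff, hsph w hw]
    exact hr1
  have hpt : ∀ w ∈ sphere (0 : ℂ) |ρ|, ‖g₂ w‖ ^ q * ‖h w‖ ≤
      2 * Real.exp 16 * (‖g w‖ ^ q * (‖g w‖ - ‖f w‖)) := by
    intro w hw
    have hwρ := hsph w hw
    obtain ⟨t, ht1, ht2⟩ := exists_arg (t₁ := t₁) hwρ
    have e1 : ‖g₂ w‖ = ‖g w‖ := by
      have h1 := hg₂n w
      rw [norm_bl hwρ] at h1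
      have h2 : ‖g₂ w‖ * ρ = ‖g w‖ * ρ := by
        rw [h1, hgd w, norm_mul]
        ring
      exact mul_right_cancel₀ hρ0.ne' h2
    obtain ⟨e2, e3⟩ := hω2 w (by rw [hwρ]; linarith) (by rw [hwρ]; exact hρlt)
    have e4 : ‖f w‖ = ‖ω w‖ * ‖g w‖ := by rw [e2, norm_mul]
    have e5 : ‖h w‖ = ‖g w‖ * (‖ω w - u‖ * ‖Q w‖) := by
      simp only [hh]
      have : f w - u * g w = g w * (ω w - u) := by rw [e2]; ring
      rw [this, norm_mul, norm_mul]
      ring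
    have e6 := hu2 t
    rw [← ht2] at e6
    have e7 := hQ1 t ht1
    rw [← ht2] at e7
    have e8 : ‖ω w - u‖ * ‖Q w‖ ≤ 2 * (1 - ‖ω w‖) * Real.exp 16 := by
      have h1 : ‖ω w - u‖ * ‖Q w‖ ≤ (2 * (1 - ‖ω w‖) * Real.exp (2 * ρ / (η / 4) * |t - t₁|)) *
          Real.exp (-(A * |t - t₁|) + 2 * A / 2 ^ N) :=
        mul_le_mul e6 e7 (norm_nonneg _) (by
          have : 0 ≤ 1 - ‖ω w‖ := by linarith
          positivity)
      refine h1.trans ?_
      rw [mul_assoc, ← Real.exp_add]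
      apply mul_le_mul_of_nonneg_left _ (by linarith)
      apply Real.exp_le_exp.2
      rw [← hA]
      have h2 : 2 * A / 2 ^ N ≤ 16 := by
        rw [hA, div_le_iff₀ (by positivity)]
        have h3 : 2 * (2 * ρ / (η / 4)) = 16 * ρ / η := by ring
        rw [h3, div_le_iff₀ hη]
        nlinarith
      linarith
    rw [e1, e5]
    have e9 : ‖g w‖ * (‖ω w - u‖ * ‖Q w‖) ≤ ‖g w‖ * (2 * (1 - ‖ω w‖) * Real.exp 16) :=
      mul_le_mul_of_nonneg_left e8 (norm_nonneg _)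
    have e10 : ‖g w‖ * (2 * (1 - ‖ω w‖) * Real.exp 16) =
        2 * Real.exp 16 * (‖g w‖ - ‖f w‖) := by
      rw [e4]; ring
    calc ‖g w‖ ^ q * (‖g w‖ * (‖ω w - u‖ * ‖Q w‖))
        ≤ ‖g w‖ ^ q * (2 * Real.exp 16 * (‖g w‖ - ‖f w‖)) := by
          apply mul_le_mul_of_nonneg_left _ (by positivity)
          rw [← e10]
          exact e9
      _ = _ := by ring
  have hci1 : CircleIntegrable (fun w => ‖g₂ w‖ ^ q * ‖h w‖) 0 ρ := by
    apply ContinuousOn.circleIntegrable'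
    apply ContinuousOn.mul
    · exact ((hg₂d.mono hsph1).continuousOn.norm).rpow_const (fun _ _ => Or.inr hq0)
    · exact (hhd.mono hsphr).continuousOn.norm
  have hci2 : CircleIntegrable (fun w => ‖g w‖ ^ q * (‖g w‖ - ‖f w‖)) 0 ρ := by
    apply ContinuousOn.circleIntegrable'
    apply ContinuousOn.mul
    · exact ((hg.mono hsph1).continuousOn.norm).rpow_const (fun _ _ => Or.inr hq0)
    · exact ((hg.mono hsph1).continuousOn.norm).sub ((hf.mono hsph1).continuousOn.norm)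
  have hA2 : avg₂ ≤ 2 * Real.exp 16 * avg := by
    have h1 : Real.circleAverage (fun w => 2 * Real.exp 16 * (‖g w‖ ^ q * (‖g w‖ - ‖f w‖))) 0 ρ =
        2 * Real.exp 16 * avg := by
      have := Real.circleAverage_fun_smul (a := 2 * Real.exp 16)
        (f := fun w => ‖g w‖ ^ q * (‖g w‖ - ‖f w‖)) (c := 0) (R := ρ)
      simpa only [smul_eq_mul] using this
    rw [← h1]
    exact Real.circleAverage_mono hci1 (hci2.const_mul _) hpt
  have hA20 : 0 ≤ avg₂ := by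
    apply Real.circleAverage_nonneg_of_nonneg
    intro w _
    positivity
  have havg0 : 0 ≤ avg := by
    have h1 : 0 < 2 * Real.exp 16 := by positivity
    by_contra h2
    rw [not_le] at h2
    nlinarith
  -- the maximum principle
  have hcb : closedBall (0 : ℂ) c₁ ⊆ ball 0 1 := by
    intro w hw
    rw [mem_closedBall_zero_iff] at hw
    rw [mem_ball_zero_iff]
    linarith
  have hcbρ : closedBall (0 : ℂ) c₁ ⊆ ball 0 ρ := by
    intro w hw
    rw [mem_closedBall_zero_iff] at hw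
    rw [mem_ball_zero_iff]
    linarith
  have hcbr : closedBall (0 : ℂ) c₁ ⊆ ball 0 r'' := hcbρ.trans (ball_subset_ball hr1.le)
  have hmax := hM (fun z => f z * E z) h c₁ q (12 / η * avg₂) hc1pos hq0
    (((hf.mono hcb).continuousOn).mul ((hEd.mono hcbρ).continuousOn))
    ((hhd.mono hcbr).continuousOn)
    ((hf.mono (ball_subset_closedBall.trans hcb)).mul
      (hEd.mono (ball_subset_closedBall.trans hcbρ)))
    (hhd.mono (ball_subset_closedBall.trans hcbr)) ?_ z₀ ?_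
  · -- the conclusion
    by_cases hfg0 : ‖f z₀‖ ≤ ‖g z₀‖
    · have h1 : ‖f z₀‖ ^ q * (‖f z₀‖ - ‖g z₀‖) ≤ 0 :=
        mul_nonpos_of_nonneg_of_nonpos (by positivity) (by linarith)
      have h2 : 0 < η * Real.exp (q * η ^ 2 / 384) := by positivity
      have h3 : η * Real.exp (q * η ^ 2 / 384) * (‖f z₀‖ ^ q * (‖f z₀‖ - ‖g z₀‖)) ≤ 0 :=
        mul_nonpos_of_nonneg_of_nonpos h2.le h1
      have h4 : 0 ≤ 24 * Real.exp 16 * avg := by positivity
      linarith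
    · rw [not_le] at hfg0
      have hz1 : ‖z₀‖ ≤ c₁ := by rw [hc₁]; linarith
      -- lower bounds at `z₀`
      have l1 : Real.exp ((ρ - c₁) * (ρ - ‖z₀‖) / 16) ≤ ‖E z₀‖ := hE2 z₀ hz1
      have l2 : Real.exp (-(4 * Real.pi * A * (N + 1) * (1 - ‖z₀‖ / ρ))) ≤ ‖Q z₀‖ := by
        have h1 := hQ2 (‖z₀‖ / ρ) (by positivity) (by
          rw [div_le_one hρ0]
          linarith)
        have h2 : ((‖z₀‖ / ρ * ρ : ℝ) : ℂ) * cexp (t₁ * I) = z₀ := by
          rw [div_mul_cancel₀ _ hρ0.ne', ht₁]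
          exact norm_mul_exp_arg_mul_I z₀
        rw [h2] at h1
        exact h1
      have l3 : ‖f z₀‖ - ‖g z₀‖ ≤ ‖f z₀ - u * g z₀‖ := by
        have h1 := norm_sub_norm_le (f z₀) (u * g z₀)
        rw [norm_mul, hu1, one_mul] at h1
        exact h1
      have l4 : ‖f z₀‖ ^ q * Real.exp (q * ((ρ - c₁) * (ρ - ‖z₀‖) / 16)) ≤
          ‖f z₀ * E z₀‖ ^ q := by
        rw [norm_mul, Real.mul_rpow (norm_nonneg _) (norm_nonneg _)]
        apply mul_le_mul_of_nonneg_left _ (by positivity)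
        rw [mul_comm q, Real.exp_mul]
        exact Real.rpow_le_rpow (Real.exp_pos _).le l1 hq0
      have l5 : (‖f z₀‖ - ‖g z₀‖) *
          Real.exp (-(4 * Real.pi * A * (N + 1) * (1 - ‖z₀‖ / ρ))) ≤ ‖h z₀‖ := by
        simp only [hh, norm_mul]
        exact mul_le_mul l3 l2 (Real.exp_pos _).le (norm_nonneg _)
      have l6 : Real.exp (q * η ^ 2 / 384) * (‖f z₀‖ ^ q * (‖f z₀‖ - ‖g z₀‖)) ≤
          ‖f z₀ * E z₀‖ ^ q * ‖h z₀‖ := by
        have h1 := mul_le_mul l4 l5 (by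
          have : 0 ≤ ‖f z₀‖ - ‖g z₀‖ := by linarith
          positivity) (by positivity)
        refine le_trans ?_ h1
        have h2 : ‖f z₀‖ ^ q * Real.exp (q * ((ρ - c₁) * (ρ - ‖z₀‖) / 16)) *
            ((‖f z₀‖ - ‖g z₀‖) * Real.exp (-(4 * Real.pi * A * (N + 1) * (1 - ‖z₀‖ / ρ)))) =
            Real.exp (q * ((ρ - c₁) * (ρ - ‖z₀‖) / 16) -
              4 * Real.pi * A * (N + 1) * (1 - ‖z₀‖ / ρ)) *
              (‖f z₀‖ ^ q * (‖f z₀‖ - ‖g z₀‖)) := by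
          rw [Real.exp_sub, Real.exp_neg]
          ring
        rw [h2]
        apply mul_le_mul_of_nonneg_right _ (by
          have : 0 ≤ ‖f z₀‖ - ‖g z₀‖ := by linarith
          positivity)
        apply Real.exp_le_exp.2
        have h3 := expo (q := q) (η := η) (ρ := ρ) (c₁ := c₁) (d := ρ - ‖z₀‖) (N := N) hη
          (by rw [hc₁]; linarith) hq0 (by linarith) hρ0 hN2
        rw [sub_sub_cancel] at h3
        exact h3
      have l7 : η * (‖f z₀ * E z₀‖ ^ q * ‖h z₀‖) ≤ 12 * avg₂ := by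
        have h1 := mul_le_mul_of_nonneg_left hmax hη.le
        have h2 : η * (12 / η * avg₂) = 12 * avg₂ := by field_simp
        rw [h2] at h1
        exact h1
      calc η * Real.exp (q * η ^ 2 / 384) * (‖f z₀‖ ^ q * (‖f z₀‖ - ‖g z₀‖))
          = η * (Real.exp (q * η ^ 2 / 384) * (‖f z₀‖ ^ q * (‖f z₀‖ - ‖g z₀‖))) := by ring
        _ ≤ η * (‖f z₀ * E z₀‖ ^ q * ‖h z₀‖) := mul_le_mul_of_nonneg_left l6 hη.le
        _ ≤ 12 * avg₂ := l7
        _ ≤ 12 * (2 * Real.exp 16 * avg) := by linarith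
        _ = 24 * Real.exp 16 * avg := by ring
  · -- the sphere of radius `c₁`
    intro z hz
    rw [mem_sphere_zero_iff_norm] at hz
    have s1 : ‖f z‖ ≤ ‖g z‖ := hfg z (by rw [hz, hc₁]; linarith) (by rw [hz, hc₁]; linarith)
    have s2 : ‖f z * E z‖ ≤ ‖g₂ z‖ := by
      rw [norm_mul]
      have h1 := hE1 z hz
      have h2 : ‖f z‖ * ‖E z‖ * ρ ≤ ‖g₂ z‖ * ρ := by
        rw [hg₂n z]
        calc ‖f z‖ * ‖E z‖ * ρ ≤ ‖g z‖ * ‖E z‖ * ρ := by gcongr
          _ = ‖dslope g a z‖ * (‖E z‖ * (ρ * ‖z - a‖)) := by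
            rw [hgd z, norm_mul]
            ring
          _ ≤ _ := mul_le_mul_of_nonneg_left h1 (norm_nonneg _)
      exact le_of_mul_le_mul_right h2 hρ0
    have s3 : ‖f z * E z‖ ^ q * ‖h z‖ ≤ ‖g₂ z‖ ^ q * ‖h z‖ := by
      apply mul_le_mul_of_nonneg_right _ (norm_nonneg _)
      exact Real.rpow_le_rpow (norm_nonneg _) s2 hq0
    refine s3.trans ?_
    have s4 := hPT g₂ h ρ r'' q hρ0 hr1 hq0 (hg₂d.mono hsub1) hhd z (by rw [hz]; exact hc1ρ)
    rw [hz, ← havg₂] at s4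
    have s5 : 0 ≤ ‖g₂ z‖ ^ q * ‖h z‖ := by positivity
    have s6 : η / 6 * (‖g₂ z‖ ^ q * ‖h z‖) ≤ 2 * avg₂ := by
      calc η / 6 * (‖g₂ z‖ ^ q * ‖h z‖) ≤ (ρ - c₁) * (‖g₂ z‖ ^ q * ‖h z‖) := by
            apply mul_le_mul_of_nonneg_right _ s5
            rw [hc₁]; linarith
        _ ≤ 2 * ρ * avg₂ := s4
        _ ≤ 2 * avg₂ := by
          apply mul_le_mul_of_nonneg_right _ hA20
          linarith
    have s7 : ‖g₂ z‖ ^ q * ‖h z‖ = 6 / η * (η / 6 * (‖g₂ z‖ ^ q * ‖h z‖)) := by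
      field_simp
    rw [s7]
    have s8 : 12 / η * avg₂ = 6 / η * (2 * avg₂) := by ring
    rw [s8]
    exact mul_le_mul_of_nonneg_left s6 (by positivity)
  · rw [mem_closedBall_zero_iff, hc₁]
    linarith

end Pool.Agent.KRB
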