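import Mathlib

/-!
# The Korenblum constant: definitions
-/

set_option autoImplicit false

namespace Pool.Agent.KRB

open Complex MeasureTheory Set Metric

/-- the Bergman space `A^p` of the unit disc -/
def Berg (p : ℝ) (f : ℂ → ℂ) : Prop :=
  DifferentiableOn ℂ f (ball 0 1) ∧ IntegrableOn (fun z => ‖f z‖ ^ p) (ball 0 1)

/-- the norm of `A^p` -/
noncomputable def nrm (p : ℝ) (f : ℂ → ℂ) : ℝ := (∫ z in ball (0 : ℂ) 1, ‖f z‖ ^ p) ^ (1 / p)

/-- `c` has the Korenblum property for `p` -/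
def KP (p c : ℝ) : Prop := ∀ f g : ℂ → ℂ, Berg p f → Berg p g →
  (∀ z : ℂ, c < ‖z‖ → ‖z‖ < 1 → ‖f z‖ ≤ ‖g z‖) → nrm p f ≤ nrm p g

/-- the Korenblum constant `κ_p` -/
noncomputable def kap (p : ℝ) : ℝ := sSup {c : ℝ | 0 < c ∧ c < 1 ∧ KP p c}

end Pool.Agent.KRB
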