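import Pool.Agent.KRB.Stmts

/-!
# The Korenblum constant: conclusion
-/

set_option autoImplicit false

namespace Pool.Agent.KRB

open Complex MeasureTheory Set Filter Topology Metric

theorem kap_bdd (p : ℝ) : BddAbove {c : ℝ | 0 < c ∧ c < 1 ∧ KP p c} :=
  ⟨1, fun _ hc => hc.2.1.le⟩

theorem kap_nonneg (p : ℝ) : 0 ≤ kap p :=
  Real.sSup_nonneg fun _ hc => hc.1.le

theorem kap_le (hU : S_UP) {p : ℝ} (hp : 1 ≤ p) : kap p ≤ 1 - 1 / (40 * √p) := by
  apply Real.sSup_le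
  · intro c hc
    exact hU p c hp hc.1 hc.2.1 hc.2.2
  · have h1 : 1 ≤ √p := by rw [Real.one_le_sqrt]; exact hp
    have h2 : 1 / (40 * √p) ≤ 1 := by
      rw [div_le_one (by positivity)]
      linarith
    linarith

theorem le_kap {C : ℝ} (hC : 0 < C) (hL : ∀ p c : ℝ, 2 ≤ p → 0 < c → c < 1 →
    c ≤ 1 - C * √(Real.log p / p) → KP p c) {p : ℝ} (hp : 2 ≤ p) :
    1 - C * √(Real.log p / p) ≤ kap p := by
  by_cases h : 0 < 1 - C * √(Real.log p / p)
  · apply le_csSup (kap_bdd p)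
    have hlog : 0 < Real.log p := Real.log_pos (by linarith)
    have h2 : 0 < √(Real.log p / p) := Real.sqrt_pos.2 (by positivity)
    have h3 : 1 - C * √(Real.log p / p) < 1 := by
      have : 0 < C * √(Real.log p / p) := by positivity
      linarith
    exact ⟨h, h3, hL p _ hp h h3 le_rfl⟩
  · exact (not_lt.1 h).trans (kap_nonneg p)

/-- Comparison of the exponents. -/
theorem kap_lt (hU : S_UP) {C : ℝ} (hC : 1 ≤ C) (hL : ∀ p : ℝ, 2 ≤ p →
    1 - C * √(Real.log p / p) ≤ kap p) {p₁ p₂ : ℝ} (h1 : 1 ≤ p₁)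
    (h2 : 10 ^ 9 * C ^ 4 * (p₁ * Real.log (p₁ + 1)) ≤ p₂) : kap p₁ < kap p₂ := by
  have hp1 : 0 < p₁ := by linarith
  have hlog2 : 0.6931471803 < Real.log 2 := Real.log_two_gt_d9
  have hlog : Real.log 2 ≤ Real.log (p₁ + 1) := Real.log_le_log (by norm_num) (by linarith)
  have hl0 : 1 / 2 ≤ Real.log (p₁ + 1) := by linarith
  have hC4 : 1 ≤ C ^ 4 := one_le_pow₀ hC
  have hC2 : 1 ≤ C ^ 2 := one_le_pow₀ hC
  -- `y = p₂ / p₁`
  obtain ⟨y, hy⟩ : ∃ y : ℝ, y = p₂ / p₁ := ⟨_, rfl⟩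
  have hyp : p₂ = y * p₁ := by rw [hy]; field_simp
  have hy1 : 10 ^ 9 * C ^ 4 * Real.log (p₁ + 1) ≤ y := by
    rw [hy, le_div_iff₀ hp1]
    linarith
  have hyC : 5 * 10 ^ 8 * C ^ 4 ≤ y := by
    have : 10 ^ 9 * C ^ 4 * (1 / 2) ≤ 10 ^ 9 * C ^ 4 * Real.log (p₁ + 1) :=
      mul_le_mul_of_nonneg_left hl0 (by positivity)
    linarith
  have hy0 : 0 < y := by
    have : 0 < 5 * 10 ^ 8 * C ^ 4 := by positivity
    linarith
  have hy8 : 5 * 10 ^ 8 ≤ y := by linarith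
  have hp2 : 2 ≤ p₂ := by rw [hyp]; nlinarith
  have hp20 : 0 < p₂ := by linarith
  -- the logarithms
  have e1 : Real.log y ≤ 2 * √y := by
    have h3 : Real.log y = 2 * Real.log (√y) := by
      rw [Real.log_sqrt hy0.le]; ring
    have h4 := Real.log_le_sub_one_of_pos (Real.sqrt_pos.2 hy0)
    rw [h3]
    linarith
  have e2 : Real.log p₂ ≤ 2 * √y + Real.log (p₁ + 1) := by
    rw [hyp, Real.log_mul hy0.ne' hp1.ne']
    have : Real.log p₁ ≤ Real.log (p₁ + 1) := Real.log_le_log hp1 (by linarith)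
    linarith
  have e3 : 20000 * C ^ 2 ≤ √y := by
    apply Real.le_sqrt_of_sq_le
    have : (20000 * C ^ 2) ^ 2 = 4 * 10 ^ 8 * C ^ 4 := by ring
    rw [this]
    linarith
  have e4 : 2000 * C ^ 2 * Real.log p₂ < y := by
    have h3 : √y * √y = y := Real.mul_self_sqrt hy0.le
    have h4 : 20000 * C ^ 2 * √y ≤ y := by
      have := mul_le_mul_of_nonneg_right e3 (Real.sqrt_nonneg y)
      linarith
    have h5 : 2000 * C ^ 2 * Real.log (p₁ + 1) ≤ y / 4 := by
      have h6 : C ^ 2 ≤ C ^ 4 := pow_le_pow_right₀ hC (by norm_num)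
      have h7 : 2000 * C ^ 2 * Real.log (p₁ + 1) ≤ 2000 * C ^ 4 * Real.log (p₁ + 1) := by
        apply mul_le_mul_of_nonneg_right _ (by linarith)
        linarith
      have h8 : 0 ≤ C ^ 4 * Real.log (p₁ + 1) := by positivity
      linarith
    have h6 : 2000 * C ^ 2 * Real.log p₂ ≤ 2000 * C ^ 2 * (2 * √y + Real.log (p₁ + 1)) :=
      mul_le_mul_of_nonneg_left e2 (by positivity)
    linarith
  -- the square roots
  have hlp2 : 0 ≤ Real.log p₂ := Real.log_nonneg (by linarith)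
  have hs1 : 0 < √p₁ := Real.sqrt_pos.2 hp1
  have e5 : C * √(Real.log p₂ / p₂) < 1 / (40 * √p₁) := by
    rw [lt_div_iff₀ (by positivity)]
    have h3 : (C * √(Real.log p₂ / p₂) * (40 * √p₁)) ^ 2 < 1 := by
      rw [mul_pow, mul_pow, mul_pow, Real.sq_sqrt (by positivity), Real.sq_sqrt hp1.le]
      have h4 : C ^ 2 * (Real.log p₂ / p₂) * (40 ^ 2 * p₁) =
          1600 * C ^ 2 * Real.log p₂ / y := by
        rw [hyp]
        field_simp
        norm_num
      rw [h4, div_lt_one hy0]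
      have h5 : 0 ≤ C ^ 2 * Real.log p₂ := by positivity
      linarith
    have h4 : 0 ≤ C * √(Real.log p₂ / p₂) * (40 * √p₁) := by positivity
    nlinarith
  have e6 := hL p₂ hp2
  have e7 := kap_le hU h1
  linarith

/-- The order of `1 - κ_p`, and the comparison. -/
theorem fin (hU : S_UP) (hL : S_LOW) : ∃ C : ℝ, 0 < C ∧
    (∀ p : ℝ, 1 ≤ p → 1 / (40 * √p) ≤ 1 - kap p ∧
      1 - kap p ≤ C * √(Real.log (p + 1) / p)) ∧
    ∀ p₁ p₂ : ℝ, 1 ≤ p₁ → C * (p₁ * Real.log (p₁ + 1)) ≤ p₂ → kap p₁ < kap p₂ := by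
  obtain ⟨C, hC, hL⟩ := hL
  obtain ⟨D, hD⟩ : ∃ D : ℝ, D = max C 2 := ⟨_, rfl⟩
  have hD2 : 2 ≤ D := by rw [hD]; exact le_max_right _ _
  have hD1 : 1 ≤ D := by linarith
  have hDC : C ≤ D := by rw [hD]; exact le_max_left _ _
  have h1 : ∀ p : ℝ, 2 ≤ p → 1 - D * √(Real.log p / p) ≤ kap p := by
    intro p hp
    refine le_trans ?_ (le_kap hC hL hp)
    have : C * √(Real.log p / p) ≤ D * √(Real.log p / p) :=
      mul_le_mul_of_nonneg_right hDC (Real.sqrt_nonneg _)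
    linarith
  have hD4 : D ≤ 10 ^ 9 * D ^ 4 := by
    have h2 : D ≤ D ^ 4 := le_self_pow₀ hD1 (by norm_num)
    have h3 : 0 ≤ D ^ 4 := by positivity
    linarith
  refine ⟨10 ^ 9 * D ^ 4, by positivity, ?_, ?_⟩
  · intro p hp
    have hp0 : 0 < p := by linarith
    refine ⟨by linarith [kap_le hU hp], ?_⟩
    have h3 : D * √(Real.log (p + 1) / p) ≤ 10 ^ 9 * D ^ 4 * √(Real.log (p + 1) / p) :=
      mul_le_mul_of_nonneg_right hD4 (Real.sqrt_nonneg _)
    refine le_trans ?_ h3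
    rcases le_total 2 p with hp2 | hp2
    · have h4 := h1 p hp2
      have h5 : √(Real.log p / p) ≤ √(Real.log (p + 1) / p) := by
        apply Real.sqrt_le_sqrt
        apply div_le_div_of_nonneg_right _ hp0.le
        exact Real.log_le_log hp0 (by linarith)
      have h6 := mul_le_mul_of_nonneg_left h5 (by linarith : 0 ≤ D)
      linarith
    · have h4 := kap_nonneg p
      have hlog2 : 0.6931471803 < Real.log 2 := Real.log_two_gt_d9
      have hlog : Real.log 2 ≤ Real.log (p + 1) := Real.log_le_log (by norm_num) (by linarith)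
      have h5 : 1 / 2 ≤ √(Real.log (p + 1) / p) := by
        apply Real.le_sqrt_of_sq_le
        rw [le_div_iff₀ hp0]
        linarith
      have h6 : 2 * (1 / 2) ≤ D * √(Real.log (p + 1) / p) :=
        mul_le_mul hD2 h5 (by norm_num) (by linarith)
      linarith
  · intro p₁ p₂ hp₁ h2
    exact kap_lt hU hD1 h1 hp₁ h2

end Pool.Agent.KRB
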