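import Pool.Agent.KRB.Stmts

/-!
# The Korenblum constant: the gain from a zero
-/

set_option autoImplicit false

namespace Pool.Agent.KRB

open Complex MeasureTheory Set Metric

namespace GAINAux

/-- the exponent -/
noncomputable def hh (κ ρ : ℝ) (a z : ℂ) : ℂ :=
  (κ : ℂ) * (((ρ : ℂ) ^ 2 + (starRingEnd ℂ) a * z) / ((ρ : ℂ) ^ 2 - (starRingEnd ℂ) a * z))

lemma re_hh (κ ρ : ℝ) (a z : ℂ) :
    (hh κ ρ a z).re = κ * ((ρ ^ 4 - ‖a‖ ^ 2 * ‖z‖ ^ 2) /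
      ‖(ρ : ℂ) ^ 2 - (starRingEnd ℂ) a * z‖ ^ 2) := by
  have h1 : ‖a‖ ^ 2 * ‖z‖ ^ 2 =
      ((starRingEnd ℂ) a * z).re ^ 2 + ((starRingEnd ℂ) a * z).im ^ 2 := by
    have : ‖(starRingEnd ℂ) a * z‖ ^ 2 = ‖a‖ ^ 2 * ‖z‖ ^ 2 := by
      rw [norm_mul, Complex.norm_conj, mul_pow]
    rw [← this, ← Complex.normSq_eq_norm_sq, Complex.normSq_apply]
    ring
  have h2 : ‖(ρ : ℂ) ^ 2 - (starRingEnd ℂ) a * z‖ ^ 2 =
      Complex.normSq ((ρ : ℂ) ^ 2 - (starRingEnd ℂ) a * z) := (Complex.normSq_eq_norm_sq _).symm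
  unfold hh
  rw [h1, h2, Complex.re_ofReal_mul, Complex.div_re]
  set u := (starRingEnd ℂ) a * z with hu
  have e1 : ((ρ : ℂ) ^ 2 + u).re = ρ ^ 2 + u.re := by
    rw [Complex.add_re]; congr 1; rw [← Complex.ofReal_pow, Complex.ofReal_re]
  have e2 : ((ρ : ℂ) ^ 2 - u).re = ρ ^ 2 - u.re := by
    rw [Complex.sub_re]; congr 1; rw [← Complex.ofReal_pow, Complex.ofReal_re]
  have e3 : ((ρ : ℂ) ^ 2 + u).im = u.im := by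
    rw [Complex.add_im, ← Complex.ofReal_pow, Complex.ofReal_im, zero_add]
  have e4 : ((ρ : ℂ) ^ 2 - u).im = -u.im := by
    rw [Complex.sub_im, ← Complex.ofReal_pow, Complex.ofReal_im, zero_sub]
  rw [e1, e2, e3, e4]
  congr 1
  rw [← add_div]
  congr 1
  ring

/-- the basic identity -/
lemma ident (ρ : ℝ) (a z : ℂ) :
    ‖(ρ : ℂ) ^ 2 - (starRingEnd ℂ) a * z‖ ^ 2 - ρ ^ 2 * ‖z - a‖ ^ 2 =
      (ρ ^ 2 - ‖z‖ ^ 2) * (ρ ^ 2 - ‖a‖ ^ 2) := by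
  rw [← Complex.normSq_eq_norm_sq, ← Complex.normSq_eq_norm_sq, ← Complex.normSq_eq_norm_sq,
    ← Complex.normSq_eq_norm_sq]
  simp only [Complex.normSq_apply, Complex.sub_re, Complex.sub_im, Complex.mul_re,
    Complex.mul_im, Complex.conj_re, Complex.conj_im, ← Complex.ofReal_pow, Complex.ofReal_re,
    Complex.ofReal_im]
  ring

lemma den_ne {ρ c₁ : ℝ} {a z : ℂ} (ha : ‖a‖ ≤ c₁) (hc : c₁ < ρ) (hz : ‖z‖ < ρ) :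
    0 < ‖(ρ : ℂ) ^ 2 - (starRingEnd ℂ) a * z‖ := by
  have h0 : 0 ≤ ‖a‖ := norm_nonneg a
  have hρ : 0 < ρ := by linarith
  have h1 : ‖(ρ : ℂ) ^ 2‖ - ‖(starRingEnd ℂ) a * z‖ ≤ ‖(ρ : ℂ) ^ 2 - (starRingEnd ℂ) a * z‖ :=
    norm_sub_norm_le _ _
  rw [norm_mul, Complex.norm_conj, norm_pow, Complex.norm_real, Real.norm_eq_abs, sq_abs] at h1
  have h2 : ‖a‖ * ‖z‖ < ρ ^ 2 := by
    calc ‖a‖ * ‖z‖ ≤ ‖a‖ * ρ := mul_le_mul_of_nonneg_left hz.le h0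
      _ < ρ * ρ := mul_lt_mul_of_pos_right (by linarith) hρ
      _ = ρ ^ 2 := by ring
  linarith

end GAINAux

open GAINAux in
theorem gain : S_GAIN := by
  intro a c₁ ρ ha hc hρ1 hρ2
  have ha0 : 0 ≤ ‖a‖ := norm_nonneg a
  have hc0 : 0 ≤ c₁ := ha0.trans ha
  have hρ0 : 0 < ρ := by linarith
  set κ : ℝ := (ρ ^ 2 - c₁ ^ 2) / 4 with hκ
  have hκ0 : 0 ≤ κ := by rw [hκ]; nlinarith
  refine ⟨fun z => Complex.exp (hh κ ρ a z), ?_, ?_, ?_⟩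
  · intro z hz
    rw [mem_ball, dist_zero_right] at hz
    have hne : (ρ : ℂ) ^ 2 - (starRingEnd ℂ) a * z ≠ 0 := norm_pos_iff.1 (den_ne ha hc hz)
    apply DifferentiableAt.differentiableWithinAt
    apply DifferentiableAt.cexp
    unfold hh
    apply DifferentiableAt.const_mul
    have d1 : DifferentiableAt ℂ (fun y : ℂ => (ρ : ℂ) ^ 2 + (starRingEnd ℂ) a * y) z :=
      (differentiableAt_const _).add ((differentiableAt_id).const_mul _)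
    have d2 : DifferentiableAt ℂ (fun y : ℂ => (ρ : ℂ) ^ 2 - (starRingEnd ℂ) a * y) z :=
      (differentiableAt_const _).sub ((differentiableAt_id).const_mul _)
    exact d1.fun_div d2 hne
  · intro z hz
    have hD := den_ne (z := z) ha hc (by linarith)
    set D := ‖(ρ : ℂ) ^ 2 - (starRingEnd ℂ) a * z‖ with hDdef
    have hid := ident ρ a z
    rw [← hDdef, hz] at hid
    have hD2 : 0 < D ^ 2 := by positivity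
    rw [Complex.norm_exp, re_hh, ← hDdef, hz]
    set x : ℝ := (ρ ^ 2 - c₁ ^ 2) * (ρ ^ 2 - ‖a‖ ^ 2) / D ^ 2 with hx
    have hxD : x * D ^ 2 = (ρ ^ 2 - c₁ ^ 2) * (ρ ^ 2 - ‖a‖ ^ 2) := by
      rw [hx, div_mul_cancel₀ _ hD2.ne']
    have h1 : ρ ^ 2 * ‖z - a‖ ^ 2 = (1 - x) * D ^ 2 := by
      rw [sub_mul, one_mul, hxD]; linarith
    have h2 : 1 - x ≤ Real.exp (-x) := by
      have := Real.add_one_le_exp (-x)
      linarith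
    have h3 : (ρ * ‖z - a‖) ^ 2 ≤ (D * Real.exp (-(x / 2))) ^ 2 := by
      rw [mul_pow, mul_pow, h1, ← Real.exp_nat_mul]
      have e : ((2 : ℕ) : ℝ) * -(x / 2) = -x := by push_cast; ring
      rw [e, mul_comm (D ^ 2)]
      exact mul_le_mul_of_nonneg_right h2 hD2.le
    have h4 : ρ * ‖z - a‖ ≤ D * Real.exp (-(x / 2)) :=
      (pow_le_pow_iff_left₀ (by positivity) (by positivity) (by norm_num)).1 h3
    have hac : ‖a‖ ^ 2 ≤ c₁ ^ 2 := pow_le_pow_left₀ ha0 ha 2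
    have hcρ : c₁ ^ 2 ≤ ρ ^ 2 := pow_le_pow_left₀ hc0 hc.le 2
    have hρρ : ρ ^ 2 ≤ 1 := by nlinarith
    have h5 : κ * ((ρ ^ 4 - ‖a‖ ^ 2 * c₁ ^ 2) / D ^ 2) ≤ x / 2 := by
      have h6 : ρ ^ 4 - ‖a‖ ^ 2 * c₁ ^ 2 ≤ 2 * (ρ ^ 2 - ‖a‖ ^ 2) := by
        have e : ρ ^ 4 - ‖a‖ ^ 2 * c₁ ^ 2 =
            ρ ^ 2 * (ρ ^ 2 - ‖a‖ ^ 2) + ‖a‖ ^ 2 * (ρ ^ 2 - c₁ ^ 2) := by ring
        have h7 : ρ ^ 2 * (ρ ^ 2 - ‖a‖ ^ 2) ≤ 1 * (ρ ^ 2 - ‖a‖ ^ 2) :=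
          mul_le_mul_of_nonneg_right hρρ (by linarith)
        have h8 : ‖a‖ ^ 2 * (ρ ^ 2 - c₁ ^ 2) ≤ 1 * (ρ ^ 2 - c₁ ^ 2) :=
          mul_le_mul_of_nonneg_right (by linarith) (by linarith)
        linarith
      have h9 : κ * ((ρ ^ 4 - ‖a‖ ^ 2 * c₁ ^ 2) / D ^ 2) ≤
          κ * ((2 * (ρ ^ 2 - ‖a‖ ^ 2)) / D ^ 2) :=
        mul_le_mul_of_nonneg_left (div_le_div_of_nonneg_right h6 hD2.le) hκ0
      have h10 : κ * ((2 * (ρ ^ 2 - ‖a‖ ^ 2)) / D ^ 2) = x / 2 := by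
        rw [hκ, hx]; ring
      linarith
    calc Real.exp (κ * ((ρ ^ 4 - ‖a‖ ^ 2 * c₁ ^ 2) / D ^ 2)) * (ρ * ‖z - a‖)
        ≤ Real.exp (x / 2) * (D * Real.exp (-(x / 2))) :=
          mul_le_mul (Real.exp_le_exp.2 h5) h4 (by positivity) (by positivity)
      _ = D * (Real.exp (x / 2) * Real.exp (-(x / 2))) := by ring
      _ = D := by rw [← Real.exp_add, add_neg_cancel, Real.exp_zero, mul_one]
  · intro z hz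
    have hz0 : 0 ≤ ‖z‖ := norm_nonneg z
    have hzρ : ‖z‖ < ρ := lt_of_le_of_lt hz hc
    have hD := den_ne (z := z) ha hc hzρ
    rw [Complex.norm_exp, re_hh]
    apply Real.exp_le_exp.2
    set D := ‖(ρ : ℂ) ^ 2 - (starRingEnd ℂ) a * z‖ with hDdef
    have hD2 : 0 < D ^ 2 := by positivity
    have hDle : D ≤ ρ ^ 2 + ‖a‖ * ‖z‖ := by
      calc D ≤ ‖(ρ : ℂ) ^ 2‖ + ‖(starRingEnd ℂ) a * z‖ := norm_sub_le _ _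
        _ = ρ ^ 2 + ‖a‖ * ‖z‖ := by
          rw [norm_mul, Complex.norm_conj, norm_pow, Complex.norm_real, Real.norm_eq_abs, sq_abs]
    have haz : ‖a‖ * ‖z‖ ≤ ρ * ‖z‖ := mul_le_mul_of_nonneg_right (by linarith) hz0
    have hρz : ρ * ‖z‖ ≤ ρ ^ 2 := by nlinarith
    have haz0 : 0 ≤ ‖a‖ * ‖z‖ := mul_nonneg ha0 hz0
    have h1 : (ρ - ‖z‖) / 2 ≤ (ρ ^ 4 - ‖a‖ ^ 2 * ‖z‖ ^ 2) / D ^ 2 := by
      rw [le_div_iff₀ hD2]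
      have e : ρ ^ 4 - ‖a‖ ^ 2 * ‖z‖ ^ 2 = (ρ ^ 2 - ‖a‖ * ‖z‖) * (ρ ^ 2 + ‖a‖ * ‖z‖) := by ring
      have h2 : D ^ 2 ≤ (ρ ^ 2 + ‖a‖ * ‖z‖) * (2 * ρ ^ 2) := by
        rw [sq]
        exact mul_le_mul hDle (by linarith) hD.le (by positivity)
      have h3 : (ρ - ‖z‖) / 2 * D ^ 2 ≤ (ρ - ‖z‖) / 2 * ((ρ ^ 2 + ‖a‖ * ‖z‖) * (2 * ρ ^ 2)) :=
        mul_le_mul_of_nonneg_left h2 (by linarith)
      have h4 : (ρ - ‖z‖) / 2 * ((ρ ^ 2 + ‖a‖ * ‖z‖) * (2 * ρ ^ 2)) =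
          (ρ * (ρ * (ρ - ‖z‖))) * (ρ ^ 2 + ‖a‖ * ‖z‖) := by ring
      have h5 : ρ * (ρ * (ρ - ‖z‖)) ≤ 1 * (ρ * (ρ - ‖z‖)) :=
        mul_le_mul_of_nonneg_right hρ2 (mul_nonneg hρ0.le (by linarith))
      have h6 : ρ * (ρ * (ρ - ‖z‖)) ≤ ρ ^ 2 - ‖a‖ * ‖z‖ := by nlinarith
      have h7 : (ρ * (ρ * (ρ - ‖z‖))) * (ρ ^ 2 + ‖a‖ * ‖z‖) ≤
          (ρ ^ 2 - ‖a‖ * ‖z‖) * (ρ ^ 2 + ‖a‖ * ‖z‖) :=
        mul_le_mul_of_nonneg_right h6 (by positivity)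
      rw [e]
      linarith
    have hκ1 : (ρ - c₁) / 8 ≤ κ := by
      rw [hκ]
      nlinarith
    calc (ρ - c₁) * (ρ - ‖z‖) / 16 = (ρ - c₁) / 8 * ((ρ - ‖z‖) / 2) := by ring
      _ ≤ κ * ((ρ ^ 4 - ‖a‖ ^ 2 * ‖z‖ ^ 2) / D ^ 2) :=
        mul_le_mul hκ1 h1 (by linarith) hκ0

end Pool.Agent.KRB
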