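import Pool.Agent.KRB.Stmts

/-!
# The Korenblum constant: the lower bound
-/

set_option autoImplicit false

namespace Pool.Agent.KRB

open Complex MeasureTheory Set Filter Topology Metric

namespace LOWAux

/-- Smaller constants have the property as well. -/
theorem mono {p c c' : ℝ} (h : KP p c') (hc : c ≤ c') : KP p c :=
  fun f g hf hg hfg => h f g hf hg (fun z h1 h2 => hfg z (lt_of_le_of_lt hc h1) h2)

theorem two_pow_ge {p : ℝ} (hp : 0 < p) (N : ℕ) (hN : Real.log p ≤ N) : √p ≤ 2 ^ N := by
  have h1 : Real.exp (1 / 2) ≤ 2 := by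
    have h2 := Real.exp_one_lt_d9
    have h3 : Real.exp (1 / 2) * Real.exp (1 / 2) = Real.exp 1 := by
      rw [← Real.exp_add]; norm_num
    nlinarith [Real.exp_pos (1 / 2)]
  have h2 : √p = Real.exp (Real.log p / 2) := by
    rw [Real.exp_half, Real.exp_log hp]
  rw [h2]
  calc Real.exp (Real.log p / 2) ≤ Real.exp (N * (1 / 2)) := by
        apply Real.exp_le_exp.2
        linarith
    _ = Real.exp (1 / 2) ^ N := by rw [Real.exp_nat_mul]
    _ ≤ 2 ^ N := pow_le_pow_left₀ (Real.exp_pos _).le h1 N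

end LOWAux

open LOWAux

theorem low (h0 : S_LOW0) : S_LOW := by
  refine ⟨1200, by norm_num, ?_⟩
  intro p c hp hc0 hc1 hc
  have hp0 : 0 < p := by linarith
  have hlog2 : 0.6931471803 < Real.log 2 := Real.log_two_gt_d9
  have hlog : Real.log 2 ≤ Real.log p := Real.log_le_log (by norm_num) hp
  set l : ℝ := Real.log p with hl
  set s : ℝ := √(l / p) with hs
  have hs0 : 0 ≤ s := Real.sqrt_nonneg _
  have hl0 : 0 < l := by linarith
  have hs2 : s ^ 2 = l / p := Real.sq_sqrt (by positivity)
  have h600 : 600 * s < 1 / 2 := by linarith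
  -- the parameter
  set η : ℝ := min (1 - c) (1 / 2) with hη
  have hη1 : 600 * s ≤ η := by
    rw [hη]
    apply le_min
    · linarith
    · linarith
  have hη2 : η ≤ 1 / 2 := min_le_right _ _
  have hspos : 0 < s := by
    rw [hs]
    apply Real.sqrt_pos.2
    have : 0 < l := by linarith
    positivity
  have hη0 : 0 < η := by linarith
  have hcη : c ≤ 1 - η := by
    have : η ≤ 1 - c := min_le_left _ _
    linarith
  refine mono ?_ hcη
  -- `η² ≥ 360000 log p / p`
  have hη3 : 360000 * (l / p) ≤ η ^ 2 := by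
    rw [← hs2]
    nlinarith
  have hη4 : 360000 * l ≤ p * η ^ 2 := by
    have := mul_le_mul_of_nonneg_left hη3 hp0.le
    have h1 : p * (360000 * (l / p)) = 360000 * l := by field_simp
    linarith
  have hq : 180000 * l ≤ (p - 1) * η ^ 2 := by
    have h1 : p / 2 ≤ p - 1 := by linarith
    have h2 : p / 2 * η ^ 2 ≤ (p - 1) * η ^ 2 := mul_le_mul_of_nonneg_right h1 (by positivity)
    linarith
  obtain ⟨N, hN⟩ : ∃ N : ℕ, N = ⌈l⌉₊ := ⟨_, rfl⟩
  have hN1 : l ≤ N := by rw [hN]; exact Nat.le_ceil _
  have hN2 : (N : ℝ) < l + 1 := by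
    rw [hN]
    exact Nat.ceil_lt_add_one (by linarith)
  have hpη : 1 ≤ √p * η := by
    have h1 : 1 ≤ (√p * η) ^ 2 := by
      rw [mul_pow, Real.sq_sqrt hp0.le]
      linarith
    have h2 : 0 ≤ √p * η := by positivity
    nlinarith
  apply h0 p η N hp hη0 hη2
  · refine hpη.trans ?_
    exact mul_le_mul_of_nonneg_right (two_pow_ge hp0 N hN1) hη0.le
  · have : 40000 * ((N : ℝ) + 1) ≤ 40000 * (l + 2) := by linarith
    linarith
  · -- the exponential
    have h1 : Real.exp (3 * l + 100) ≤ Real.exp ((p - 1) * η ^ 2 / 384) := by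
      apply Real.exp_le_exp.2
      linarith
    have h2 : Real.exp (3 * l + 100) = p ^ 3 * Real.exp 100 := by
      rw [Real.exp_add]
      congr 1
      rw [show 3 * l = l + l + l by ring, Real.exp_add, Real.exp_add, hl, Real.exp_log hp0]
      ring
    rw [h2] at h1
    have h3 : 144 * Real.exp 16 ≤ Real.exp 100 := by
      have h4 : (144 : ℝ) ≤ Real.exp 84 := by
        have := Real.add_one_le_exp (84 : ℝ)
        have h5 : Real.exp 84 = Real.exp 42 * Real.exp 42 := by rw [← Real.exp_add]; norm_num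
        have h6 := Real.add_one_le_exp (42 : ℝ)
        nlinarith
      have h7 : Real.exp 100 = Real.exp 84 * Real.exp 16 := by rw [← Real.exp_add]; norm_num
      rw [h7]
      exact mul_le_mul_of_nonneg_right h4 (Real.exp_pos _).le
    have h4 : 1 ≤ p * η ^ 2 := by linarith
    calc 144 * Real.exp 16 * p ≤ Real.exp 100 * p := mul_le_mul_of_nonneg_right h3 hp0.le
      _ ≤ Real.exp 100 * p * (p * (p * η ^ 2)) := by
          apply le_mul_of_one_le_right (by positivity)
          nlinarith
      _ = η ^ 2 * (p ^ 3 * Real.exp 100) := by ring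
      _ ≤ η ^ 2 * Real.exp ((p - 1) * η ^ 2 / 384) :=
          mul_le_mul_of_nonneg_left h1 (by positivity)

end Pool.Agent.KRB
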