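import Pool.Agent.KRB.Stmts

/-!
# The Korenblum constant: the property at `1 - η`
-/

set_option autoImplicit false

namespace Pool.Agent.KRB

open Complex MeasureTheory Set Filter Topology Metric

namespace LOW0Aux

/-- The tangent inequality. -/
theorem tangent {p x y : ℝ} (hp : 1 < p) (hx : 0 ≤ x) (hy : 0 ≤ y) :
    x ^ p - y ^ p ≤ p * (x ^ (p - 1) * (x - y)) := by
  rcases hx.eq_or_lt with rfl | hx
  · rw [Real.zero_rpow (by linarith), Real.zero_rpow (by linarith)]
    have : 0 ≤ y ^ p := Real.rpow_nonneg hy _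
    linarith
  · have h1 := one_add_mul_self_le_rpow_one_add (s := y / x - 1) (p := p) (by
      have : 0 ≤ y / x := by positivity
      linarith) hp.le
    have h2 : 1 + (y / x - 1) = y / x := by ring
    rw [h2, Real.div_rpow hy hx.le] at h1
    have hxp : 0 < x ^ p := Real.rpow_pos_of_pos hx _
    rw [le_div_iff₀ hxp] at h1
    have h3 : x ^ (p - 1) * x = x ^ p := by
      rw [← Real.rpow_add_one hx.ne', sub_add_cancel]
    have h4 : (1 + p * (y / x - 1)) * x ^ p = x ^ p + p * (x ^ (p - 1) * (y - x)) := by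
      rw [← h3]
      field_simp
    rw [h4] at h1
    have h5 : p * (x ^ (p - 1) * (x - y)) = -(p * (x ^ (p - 1) * (y - x))) := by ring
    rw [h5]
    linarith

/-- The lower bound for the gain. -/
theorem gain_le {p x y : ℝ} (hp : 1 ≤ p) (hx : 0 ≤ x) (hxy : x ≤ y) :
    y ^ (p - 1) * (y - x) ≤ y ^ p - x ^ p := by
  have h1 : ∀ t : ℝ, 0 ≤ t → t ^ p = t ^ (p - 1) * t := by
    intro t ht
    rcases ht.eq_or_lt with rfl | ht
    · rw [Real.zero_rpow (by linarith), mul_zero]
    · rw [← Real.rpow_add_one ht.ne', sub_add_cancel]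
  rw [h1 y (hx.trans hxy), h1 x hx, mul_sub]
  have h2 : x ^ (p - 1) * x ≤ y ^ (p - 1) * x := by
    apply mul_le_mul_of_nonneg_right _ hx
    exact Real.rpow_le_rpow hx hxy (by linarith)
  linarith

/-- Comparison of the norms. -/
theorem nrm_le {p : ℝ} (hp : 0 < p) {f g : ℂ → ℂ}
    (h : ∫ z in ball (0 : ℂ) 1, ‖f z‖ ^ p ≤ ∫ z in ball (0 : ℂ) 1, ‖g z‖ ^ p) :
    nrm p f ≤ nrm p g := by
  apply Real.rpow_le_rpow _ h (by positivity)
  apply integral_nonneg
  intro z
  positivity

theorem nrm_le_of_le {p : ℝ} (hp : 0 < p) {f g : ℂ → ℂ} (hf : Berg p f) (hg : Berg p g)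
    (h : ∀ z : ℂ, ‖z‖ < 1 → ‖f z‖ ≤ ‖g z‖) : nrm p f ≤ nrm p g := by
  apply nrm_le hp
  apply setIntegral_mono_on hf.2 hg.2 measurableSet_ball
  intro z hz
  rw [mem_ball_zero_iff] at hz
  exact Real.rpow_le_rpow (norm_nonneg _) (h z hz) hp.le

end LOW0Aux

open LOW0Aux

theorem low0 (hC : S_CORE) (hP : S_POL) (hZ : S_ZF) : S_LOW0 := by
  intro p η N hp hη hη2 hN1 hN2 hX f g hf hg hfg
  have hp0 : 0 < p := by linarith
  have hc0 : 0 < 1 - η := by linarith
  have hc1 : 1 - η < 1 := by linarith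
  by_cases hzf : ∀ z : ℂ, ‖z‖ ≤ 1 - η → g z ≠ 0
  · exact nrm_le_of_le hp0 hf hg (hZ f g (1 - η) hc0 hc1 hf.1 hg.1 hfg hzf)
  push Not at hzf
  obtain ⟨a, ha, hga⟩ := hzf
  by_cases hne : ∃ z : ℂ, ‖z‖ < 1 ∧ g z ≠ 0
  swap
  · -- `g = 0`
    push Not at hne
    apply nrm_le_of_le hp0 hf hg
    intro z hz
    rw [hne z hz, norm_zero]
    apply le_of_forall_pos_le_add
    intro ε hε
    have h1 := hZ f (fun _ => (ε : ℂ)) (1 - η) hc0 hc1 hf.1 (differentiableOn_const _)
      (fun w hw1 hw2 => by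
        have h2 := hfg w hw1 hw2
        rw [hne w hw2, norm_zero] at h2
        rw [norm_real, Real.norm_of_nonneg hε.le]
        linarith) (fun w _ => by exact_mod_cast hε.ne') z hz
    rw [norm_real, Real.norm_of_nonneg hε.le] at h1
    linarith
  -- the main case
  have hcore := fun (ρ : ℝ) (h1 : 1 - η / 2 ≤ ρ) (h2 : ρ ≤ 1 - η / 3) =>
    hC f g p η ρ N a hp hη hη2 h1 h2 hN1 hN2 hf.1 hg.1 hfg ha hga hne
  set e : ℝ := Real.exp ((p - 1) * η ^ 2 / 384) with he
  have he0 : 0 < e := Real.exp_pos _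
  set av : ℝ → ℝ := fun ρ => Real.circleAverage (fun w => ‖g w‖ ^ (p - 1) * (‖g w‖ - ‖f w‖)) 0 ρ
    with hav
  set K : ℝ := 24 * Real.exp 16 / (η * e) with hK
  have hK0 : 0 < K := by positivity
  -- pointwise
  have hpt : ∀ ρ, 1 - η / 2 ≤ ρ → ρ ≤ 1 - η / 3 → ∀ z₀ : ℂ, ‖z₀‖ ≤ 1 - η →
      ‖f z₀‖ ^ p - ‖g z₀‖ ^ p ≤ p * (K * av ρ) := by
    intro ρ h1 h2 z₀ hz₀
    refine (tangent (by linarith) (norm_nonneg _) (norm_nonneg _)).trans ?_
    apply mul_le_mul_of_nonneg_left _ hp0.le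
    have h3 := hcore ρ h1 h2 z₀ hz₀
    rw [hK, div_mul_eq_mul_div, le_div_iff₀ (by positivity)]
    linarith
  -- integrability
  have hF : IntegrableOn (fun z => ‖f z‖ ^ p - ‖g z‖ ^ p) (ball 0 1) := hf.2.sub hg.2
  set A : Set ℂ := {z | 1 - η < ‖z‖ ∧ ‖z‖ < 1} with hA
  have hAm : MeasurableSet A :=
    (measurableSet_lt measurable_const measurable_norm).inter
      (measurableSet_lt measurable_norm measurable_const)
  have hAb : A ⊆ ball 0 1 := fun z hz => by rw [mem_ball_zero_iff]; exact hz.2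
  have hun : ball (0 : ℂ) 1 = closedBall 0 (1 - η) ∪ A := by
    ext z
    rw [mem_ball_zero_iff, mem_union, mem_closedBall_zero_iff, hA, mem_ofPred_eq]
    constructor
    · intro h
      by_cases h1 : ‖z‖ ≤ 1 - η
      · exact Or.inl h1
      · exact Or.inr ⟨not_le.1 h1, h⟩
    · rintro (h | h)
      · linarith
      · exact h.2
  have hdj : Disjoint (closedBall (0 : ℂ) (1 - η)) A := by
    rw [Set.disjoint_left]
    intro z h1 h2
    rw [mem_closedBall_zero_iff] at h1
    exact absurd h2.1 (not_lt.2 h1)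
  have hcb : closedBall (0 : ℂ) (1 - η) ⊆ ball 0 1 := by
    rw [hun]
    exact subset_union_left
  set L : ℝ := ∫ z in closedBall (0 : ℂ) (1 - η), (‖f z‖ ^ p - ‖g z‖ ^ p) with hL
  set G : ℝ := ∫ z in A, (‖g z‖ ^ p - ‖f z‖ ^ p) with hG
  have hsum : (∫ z in ball (0 : ℂ) 1, ‖f z‖ ^ p) - ∫ z in ball (0 : ℂ) 1, ‖g z‖ ^ p = L - G := by
    rw [← integral_sub hf.2 hg.2, hun, setIntegral_union hdj hAm (hF.mono_set hcb)
      (hF.mono_set hAb)]
    have h1 : ∫ z in A, (‖f z‖ ^ p - ‖g z‖ ^ p) = -G := by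
      rw [hG, ← integral_neg]
      congr 1
      ext z
      ring
    rw [h1]
    ring
  -- the gain
  set Φ : ℂ → ℝ := fun w => ‖g w‖ ^ (p - 1) * (‖g w‖ - ‖f w‖) with hΦ
  have hΦc : ContinuousOn Φ (ball 0 1) := by
    apply ContinuousOn.mul
    · exact (hg.1.continuousOn.norm).rpow_const (fun _ _ => Or.inr (by linarith))
    · exact hg.1.continuousOn.norm.sub hf.1.continuousOn.norm
  have hΦ0 : ∀ z ∈ A, Φ z ≤ ‖g z‖ ^ p - ‖f z‖ ^ p ∧ 0 ≤ Φ z := by
    intro z hz
    have h1 := hfg z hz.1 hz.2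
    refine ⟨gain_le (by linarith) (norm_nonneg _) h1, ?_⟩
    exact mul_nonneg (by positivity) (by linarith)
  have hGi : IntegrableOn (fun z => ‖g z‖ ^ p - ‖f z‖ ^ p) A :=
    (hg.2.sub hf.2).mono_set hAb
  have hG0 : 0 ≤ G := by
    apply setIntegral_nonneg hAm
    intro z hz
    have := hΦ0 z hz
    linarith
  apply nrm_le hp0
  suffices h : L ≤ G by linarith
  by_cases hL0 : L ≤ 0
  · exact hL0.trans hG0
  rw [not_le] at hL0
  set A' : Set ℂ := {z : ℂ | 1 - η / 2 < ‖z‖ ∧ ‖z‖ < 1 - η / 3} with hA'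
  have hA'm : MeasurableSet A' :=
    (measurableSet_lt measurable_const measurable_norm).inter
      (measurableSet_lt measurable_norm measurable_const)
  have hA'A : A' ⊆ A := by
    intro z hz
    exact ⟨by linarith [hz.1], by linarith [hz.2]⟩
  -- the loss
  have hloss : ∀ ρ ∈ Ioo (1 - η / 2) (1 - η / 3), L / (p * K * Real.pi) ≤ av ρ := by
    intro ρ hρ
    rw [div_le_iff₀ (by positivity)]
    have hav0 : 0 ≤ av ρ := by
      apply Real.circleAverage_nonneg_of_nonneg
      intro w hw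
      rw [mem_sphere_zero_iff_norm, abs_of_pos (by linarith [hρ.1])] at hw
      exact (hΦ0 w ⟨by rw [hw]; linarith [hρ.1], by rw [hw]; linarith [hρ.2]⟩).2
    have h1 : L ≤ ∫ _z in closedBall (0 : ℂ) (1 - η), p * (K * av ρ) := by
      apply setIntegral_mono_on (hF.mono_set hcb)
      · exact integrableOn_const (by
          exact (isCompact_closedBall (0 : ℂ) (1 - η)).measure_lt_top.ne)
      · exact measurableSet_closedBall
      · intro z hz
        rw [mem_closedBall_zero_iff] at hz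
        exact hpt ρ hρ.1.le hρ.2.le z hz
    have h2 : ∫ _z in closedBall (0 : ℂ) (1 - η), p * (K * av ρ) =
        (1 - η) ^ 2 * Real.pi * (p * (K * av ρ)) := by
      rw [setIntegral_const, smul_eq_mul, Measure.real, Complex.volume_closedBall,
        ENNReal.toReal_mul, ENNReal.toReal_pow, ENNReal.toReal_ofReal hc0.le]
      rfl
    rw [h2] at h1
    have h3 : (1 - η) ^ 2 ≤ 1 := pow_le_one₀ hc0.le hc1.le
    have h4 : 0 ≤ Real.pi * (p * (K * av ρ)) := by positivity
    calc L ≤ (1 - η) ^ 2 * Real.pi * (p * (K * av ρ)) := h1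
      _ = (1 - η) ^ 2 * (Real.pi * (p * (K * av ρ))) := by ring
      _ ≤ 1 * (Real.pi * (p * (K * av ρ))) := mul_le_mul_of_nonneg_right h3 h4
      _ = av ρ * (p * K * Real.pi) := by ring
  have h1 := hP Φ (1 - η / 2) (1 - η / 3) (L / (p * K * Real.pi)) (by linarith) (by linarith)
    (by linarith) (by positivity) hΦc hloss
  have h2 : ∫ z in A', Φ z ≤ G := by
    calc ∫ z in A', Φ z ≤ ∫ z in A', (‖g z‖ ^ p - ‖f z‖ ^ p) := by
          apply setIntegral_mono_on _ (hGi.mono_set hA'A) hA'm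
          · intro z hz
            exact (hΦ0 z (hA'A hz)).1
          · have hcc : closedBall (0 : ℂ) (1 - η / 3) ⊆ ball 0 1 := by
              intro z hz
              rw [mem_closedBall_zero_iff] at hz
              rw [mem_ball_zero_iff]
              linarith
            have h3 := (hΦc.mono hcc).integrableOn_compact (μ := volume)
              (isCompact_closedBall (0 : ℂ) (1 - η / 3))
            apply h3.mono_set
            intro z hz
            rw [mem_closedBall_zero_iff]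
            exact hz.2.le
      _ ≤ G := by
          apply setIntegral_mono_set hGi
          · filter_upwards [ae_restrict_mem hAm] with z hz
            have := hΦ0 z hz
            simp only [Pi.zero_apply]
            linarith
          · exact hA'A.eventuallyLE
  have h3 : L / (p * K * Real.pi) * (Real.pi * (1 - η / 3 - (1 - η / 2))) =
      L * (η / (6 * p * K)) := by
    field_simp
    ring
  rw [h3] at h1
  have h4 : 1 ≤ η / (6 * p * K) := by
    rw [le_div_iff₀ (by positivity), one_mul, hK]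
    have h5 : 6 * p * (24 * Real.exp 16 / (η * e)) = 144 * Real.exp 16 * p / (η * e) := by ring
    rw [h5, div_le_iff₀ (by positivity)]
    calc 144 * Real.exp 16 * p ≤ η ^ 2 * e := hX
      _ = η * (η * e) := by ring
  calc L = L * 1 := (mul_one L).symm
    _ ≤ L * (η / (6 * p * K)) := mul_le_mul_of_nonneg_left h4 hL0.le
    _ ≤ ∫ z in A', Φ z := h1
    _ ≤ G := h2

end Pool.Agent.KRB
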