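import Pool.Agent.KRB.Stmts

/-!
# The maximum principle for `|g|^q |h|` (module KOR_MAXP)
-/

set_option autoImplicit false

namespace Pool.Agent.KRB

open Complex MeasureTheory Set Filter Topology Metric

namespace MAXPAux

theorem loc (g h : ℂ → ℂ) (q : ℝ) (z₀ : ℂ) (hg : ∀ᶠ z in 𝓝 z₀, DifferentiableAt ℂ g z)
    (hh : ∀ᶠ z in 𝓝 z₀, DifferentiableAt ℂ h z) (h0 : ‖g z₀‖ ^ q * ‖h z₀‖ ≠ 0) :
    ∃ (Φ : ℂ → ℂ) (C : ℝ), 0 < C ∧ (∀ᶠ z in 𝓝 z₀, DifferentiableAt ℂ Φ z) ∧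
      ∀ᶠ z in 𝓝 z₀, ‖Φ z‖ = C * (‖g z‖ ^ q * ‖h z‖) := by
  by_cases hq : q = 0
  · subst hq
    refine ⟨h, 1, one_pos, hh, Filter.Eventually.of_forall fun z => ?_⟩
    rw [Real.rpow_zero, one_mul, one_mul]
  · have hg0 : g z₀ ≠ 0 := by
      intro h1
      apply h0
      rw [h1, norm_zero, Real.zero_rpow hq, zero_mul]
    have hc : 0 < ‖g z₀‖ := norm_pos_iff.2 hg0
    have hgc : ContinuousAt g z₀ := hg.self_of_nhds.continuousAt
    have hslit : ∀ᶠ z in 𝓝 z₀, g z / g z₀ ∈ slitPlane := by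
      have h1 : ContinuousAt (fun z => g z / g z₀) z₀ := hgc.div_const _
      have h2 : g z₀ / g z₀ ∈ slitPlane := by
        rw [div_self hg0]; exact one_mem_slitPlane
      exact h1.eventually_mem (isOpen_slitPlane.mem_nhds h2)
    refine ⟨fun z => cexp ((q : ℂ) * log (g z / g z₀)) * h z, (‖g z₀‖ ^ q)⁻¹,
      inv_pos.2 (Real.rpow_pos_of_pos hc _), ?_, ?_⟩
    · filter_upwards [hg, hh, hslit] with z hz1 hz2 hz3
      exact (((hz1.div_const _).clog hz3).const_mul _).cexp.mul hz2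
    · filter_upwards [hslit] with z hz3
      have hne : g z / g z₀ ≠ 0 := slitPlane_ne_zero hz3
      have hpos : 0 < ‖g z / g z₀‖ := norm_pos_iff.2 hne
      rw [norm_mul, norm_exp]
      have h1 : ((q : ℂ) * log (g z / g z₀)).re = Real.log ‖g z / g z₀‖ * q := by
        rw [re_ofReal_mul, log_re, mul_comm]
      rw [h1, ← Real.rpow_def_of_pos hpos, norm_div, Real.div_rpow (norm_nonneg _) (norm_nonneg _)]
      rw [div_eq_mul_inv]
      ring

end MAXPAux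

theorem maxp : S_MAXP := by
  intro g h r q M hr hq hgc hhc hgd hhd hM
  by_contra hcon
  push Not at hcon
  obtain ⟨z1, hz1, hz1M⟩ := hcon
  have hΨc : ContinuousOn (fun z => ‖g z‖ ^ q * ‖h z‖) (closedBall 0 r) :=
    (hgc.norm.rpow_const (fun x _ => Or.inr hq)).mul hhc.norm
  have hcomp : IsCompact (closedBall (0 : ℂ) r) := isCompact_closedBall 0 r
  obtain ⟨z2, hz2, hmax⟩ := hcomp.exists_isMaxOn ⟨z1, hz1⟩ hΨc
  set m : ℝ := ‖g z2‖ ^ q * ‖h z2‖ with hm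
  have hmax' : ∀ z ∈ closedBall (0 : ℂ) r, ‖g z‖ ^ q * ‖h z‖ ≤ m := fun z hz => hmax hz
  have hMm : M < m := lt_of_lt_of_le hz1M (hmax' z1 hz1)
  have hM0 : 0 ≤ M := by
    have h1 : (r : ℂ) ∈ sphere (0 : ℂ) r := by
      rw [mem_sphere_zero_iff_norm, Complex.norm_real, Real.norm_of_nonneg hr.le]
    exact le_trans (by positivity) (hM _ h1)
  have hm0 : 0 < m := lt_of_le_of_lt hM0 hMm
  have hKc : IsCompact (closedBall (0 : ℂ) r ∩ {z | ‖g z‖ ^ q * ‖h z‖ = m}) := by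
    have h1 : IsClosed (closedBall (0 : ℂ) r ∩ (fun z => ‖g z‖ ^ q * ‖h z‖) ⁻¹' {m}) :=
      hΨc.preimage_isClosed_of_isClosed isClosed_closedBall isClosed_singleton
    exact hcomp.of_isClosed_subset h1 Set.inter_subset_left
  obtain ⟨z0, hz0, hre⟩ := hKc.exists_isMaxOn ⟨z2, hz2, rfl⟩ (continuous_re.continuousOn)
  have hz0m : ‖g z0‖ ^ q * ‖h z0‖ = m := hz0.2
  have hz0b : z0 ∈ ball (0 : ℂ) r := by
    rw [mem_ball_zero_iff]
    have h1 : ‖z0‖ ≤ r := mem_closedBall_zero_iff.1 hz0.1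
    rcases lt_or_eq_of_le h1 with h2 | h2
    · exact h2
    · exfalso
      have h3 := hM z0 (mem_sphere_zero_iff_norm.2 h2)
      rw [hz0m] at h3
      linarith
  have hbn : ball (0 : ℂ) r ∈ 𝓝 z0 := isOpen_ball.mem_nhds hz0b
  have hgd' : ∀ᶠ z in 𝓝 z0, DifferentiableAt ℂ g z := by
    filter_upwards [hbn] with z hz
    exact hgd.differentiableAt (isOpen_ball.mem_nhds hz)
  have hhd' : ∀ᶠ z in 𝓝 z0, DifferentiableAt ℂ h z := by
    filter_upwards [hbn] with z hz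
    exact hhd.differentiableAt (isOpen_ball.mem_nhds hz)
  obtain ⟨Φ, C, hC, hΦd, hΦn⟩ := MAXPAux.loc g h q z0 hgd' hhd' (by rw [hz0m]; exact hm0.ne')
  have hΦ0 : ‖Φ z0‖ = C * m := by rw [hΦn.self_of_nhds, hz0m]
  have hloc : IsLocalMax (norm ∘ Φ) z0 := by
    filter_upwards [hΦn, hbn] with z hz hzb
    simp only [Function.comp_apply]
    rw [hz, hΦ0]
    exact mul_le_mul_of_nonneg_left (hmax' z (ball_subset_closedBall hzb)) hC.le
  have hev := Complex.norm_eventually_eq_of_isLocalMax hΦd hloc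
  have hev2 : ∀ᶠ z in 𝓝 z0, z ∈ ball (0 : ℂ) r ∧ ‖g z‖ ^ q * ‖h z‖ = m := by
    filter_upwards [hev, hΦn, hbn] with z hz1 hz2 hz3
    refine ⟨hz3, ?_⟩
    rw [hz1, hΦ0] at hz2
    exact (mul_left_cancel₀ hC.ne' hz2).symm
  obtain ⟨ε, hε, hball⟩ := Metric.eventually_nhds_iff.1 hev2
  have h5 := hball (y := z0 + ((ε / 2 : ℝ) : ℂ)) (by
    rw [dist_eq_norm, add_sub_cancel_left, Complex.norm_real, Real.norm_of_nonneg (by linarith)]
    linarith)
  have h6 : (z0 + ((ε / 2 : ℝ) : ℂ)).re ≤ z0.re :=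
    hre ⟨ball_subset_closedBall h5.1, h5.2⟩
  rw [add_re, ofReal_re] at h6
  linarith

end Pool.Agent.KRB
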