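import Pool.Agent.KRB.Stmts

/-!
# The multiplier
-/

set_option autoImplicit false

namespace Pool.Agent.KRB

open Complex MeasureTheory Set Metric

namespace MULAux

/-- The function `q` in terms of `ζ`. -/
noncomputable def qf (N : ℕ) (ζ : ℂ) : ℂ :=
  ∑ k ∈ Finset.range (N + 1), (((1 / 2 : ℝ) ^ k : ℝ) : ℂ) * (ζ / (ζ + (((1 / 2 : ℝ) ^ k : ℝ) : ℂ)))

lemma re_div {ζ : ℂ} {ε : ℝ} : (ζ / (ζ + (ε : ℂ))).re =
    (ζ.re * (ζ.re + ε) + ζ.im ^ 2) / ((ζ.re + ε) ^ 2 + ζ.im ^ 2) := by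
  rw [Complex.div_re, Complex.normSq_apply, ← add_div]
  simp only [Complex.add_re, Complex.ofReal_re, Complex.add_im, Complex.ofReal_im, add_zero]
  congr 1 <;> ring

lemma re_div_nonneg {ζ : ℂ} {ε : ℝ} (hε : 0 < ε) (hζ : 0 ≤ ζ.re) :
    0 ≤ (ζ / (ζ + (ε : ℂ))).re := by
  rw [re_div]
  positivity

lemma re_div_ge {ζ : ℂ} {ε : ℝ} (hε : 0 < ε) (hζ : 0 ≤ ζ.re) (h : ε ≤ ‖ζ‖) :
    1 / 4 ≤ (ζ / (ζ + (ε : ℂ))).re := by
  rw [re_div]
  have h2 : ε ^ 2 ≤ ζ.re ^ 2 + ζ.im ^ 2 := by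
    have h3 : ‖ζ‖ ^ 2 = ζ.re ^ 2 + ζ.im ^ 2 := by
      rw [← Complex.normSq_eq_norm_sq, Complex.normSq_apply]
      ring
    rw [← h3]
    exact pow_le_pow_left₀ hε.le h 2
  have h4 : 0 < (ζ.re + ε) ^ 2 + ζ.im ^ 2 := by positivity
  rw [le_div_iff₀ h4]
  nlinarith [mul_nonneg hζ hε.le]

lemma re_q {N : ℕ} {ζ : ℂ} (hζ : 0 ≤ ζ.re) (h2 : ‖ζ‖ ≤ 2) :
    (‖ζ‖ - (1 / 2) ^ N) / 8 ≤ (qf N ζ).re := by
  classical
  have hre : (qf N ζ).re = ∑ k ∈ Finset.range (N + 1),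
      (1 / 2 : ℝ) ^ k * (ζ / (ζ + (((1 / 2 : ℝ) ^ k : ℝ) : ℂ))).re := by
    unfold qf
    rw [Complex.re_sum]
    exact Finset.sum_congr rfl fun k _ => Complex.re_ofReal_mul _ _
  have hnn : ∀ k ∈ Finset.range (N + 1),
      0 ≤ (1 / 2 : ℝ) ^ k * (ζ / (ζ + (((1 / 2 : ℝ) ^ k : ℝ) : ℂ))).re := by
    intro k _
    exact mul_nonneg (by positivity) (re_div_nonneg (by positivity) hζ)
  by_cases hN : (1 / 2 : ℝ) ^ N ≤ ‖ζ‖
  · have hex : ∃ k : ℕ, (1 / 2 : ℝ) ^ k ≤ ‖ζ‖ := ⟨N, hN⟩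
    have hk := Nat.find_spec hex
    have hkN : Nat.find hex ≤ N := Nat.find_min' hex hN
    have hup : ‖ζ‖ ≤ 2 * (1 / 2 : ℝ) ^ (Nat.find hex) := by
      rcases Nat.eq_zero_or_pos (Nat.find hex) with h0 | h0
      · rw [h0, pow_zero, mul_one]
        exact h2
      · have := Nat.find_min hex (m := Nat.find hex - 1) (by omega)
        obtain ⟨j, hj⟩ : ∃ j, Nat.find hex = j + 1 := ⟨Nat.find hex - 1, by omega⟩
        rw [hj, Nat.add_sub_cancel] at this
        rw [hj, pow_succ]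
        linarith [not_le.1 this]
    have h1 := Finset.single_le_sum hnn (Finset.mem_range.2 (Nat.lt_succ_of_le hkN))
    rw [hre]
    refine le_trans ?_ h1
    have h3 := re_div_ge (ζ := ζ) (ε := (1 / 2 : ℝ) ^ (Nat.find hex)) (by positivity) hζ hk
    have h4 : (1 / 2 : ℝ) ^ (Nat.find hex) * (1 / 4) ≤ (1 / 2 : ℝ) ^ (Nat.find hex) *
        (ζ / (ζ + (((1 / 2 : ℝ) ^ (Nat.find hex) : ℝ) : ℂ))).re :=
      mul_le_mul_of_nonneg_left h3 (by positivity)
    refine le_trans ?_ h4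
    have h5 : (0 : ℝ) < (1 / 2) ^ N := by positivity
    linarith
  · rw [hre]
    refine le_trans ?_ (Finset.sum_nonneg hnn)
    linarith [not_le.1 hN]

lemma q_real {N : ℕ} {x : ℝ} (hx : 0 ≤ x) :
    (qf N (x : ℂ)).re ≤ (N + 1) * x := by
  have hre : (qf N (x : ℂ)).re = ∑ k ∈ Finset.range (N + 1),
      (1 / 2 : ℝ) ^ k * (x / (x + (1 / 2 : ℝ) ^ k)) := by
    unfold qf
    rw [Complex.re_sum]
    refine Finset.sum_congr rfl fun k _ => ?_
    rw [Complex.re_ofReal_mul, ← Complex.ofReal_add, ← Complex.ofReal_div, Complex.ofReal_re]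
  rw [hre]
  have : ∀ k ∈ Finset.range (N + 1), (1 / 2 : ℝ) ^ k * (x / (x + (1 / 2 : ℝ) ^ k)) ≤ x := by
    intro k _
    have hp : (0 : ℝ) < (1 / 2) ^ k := by positivity
    rw [mul_div_assoc', div_le_iff₀ (by positivity)]
    nlinarith [mul_nonneg hx hx]
  refine (Finset.sum_le_sum this).trans ?_
  rw [Finset.sum_const, Finset.card_range, nsmul_eq_mul]
  push_cast
  exact le_rfl

end MULAux

open MULAux in
/-- The multiplier. -/
theorem mul : S_MUL := by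
  intro A ρ t₁ N hA hρ
  have hρ0 : (ρ : ℂ) ≠ 0 := by exact_mod_cast hρ.ne'
  have hpN : (0 : ℝ) < (1 / 2) ^ N := by positivity
  refine ⟨fun z => cexp (((-(4 * Real.pi * A) : ℝ) : ℂ) *
    qf N (1 - z * cexp (-(t₁ * I)) / ρ)), ρ * (1 + (1 / 2) ^ N), ?_, ?_, ?_, ?_⟩
  · nlinarith [mul_pos hρ hpN]
  · intro z hz
    refine DifferentiableAt.differentiableWithinAt ?_
    have hw : DifferentiableAt ℂ (fun z : ℂ => 1 - z * cexp (-(t₁ * I)) / ρ) z := by
      fun_prop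
    refine DifferentiableAt.cexp (DifferentiableAt.const_mul ?_ _)
    unfold qf
    refine DifferentiableAt.fun_sum fun k hk => ?_
    refine DifferentiableAt.const_mul ?_ _
    refine DifferentiableAt.div hw (hw.add_const _) ?_
    intro h0
    have hk' : k ≤ N := Nat.lt_succ_iff.1 (Finset.mem_range.1 hk)
    have h1 : z * cexp (-(t₁ * I)) / ρ = ((1 + (1 / 2 : ℝ) ^ k : ℝ) : ℂ) := by
      push_cast
      push_cast at h0
      linear_combination -h0
    have h2 : ‖z * cexp (-(t₁ * I)) / ρ‖ = ‖z‖ / ρ := by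
      rw [norm_div, norm_mul, ← neg_mul, ← Complex.ofReal_neg, Complex.norm_exp_ofReal_mul_I,
        mul_one, Complex.norm_real, Real.norm_of_nonneg hρ.le]
    rw [h1, Complex.norm_real, Real.norm_of_nonneg (by positivity)] at h2
    have h3 : ‖z‖ < ρ * (1 + (1 / 2) ^ N) := by simpa using hz
    have h4 : (1 / 2 : ℝ) ^ N ≤ (1 / 2) ^ k :=
      pow_le_pow_of_le_one (by norm_num) (by norm_num) hk'
    rw [eq_div_iff hρ.ne'] at h2
    nlinarith
  · intro t ht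
    have hz : (ρ : ℂ) * cexp (t * I) * cexp (-(t₁ * I)) / ρ = cexp ((t - t₁ : ℝ) * I) := by
      rw [mul_assoc, mul_div_assoc, mul_comm (ρ : ℂ), div_mul_cancel₀ _ hρ0, ← Complex.exp_add]
      congr 1
      push_cast
      ring
    simp only [hz]
    rw [Complex.norm_exp, Complex.re_ofReal_mul]
    refine Real.exp_le_exp.2 ?_
    set θ : ℝ := t - t₁ with hθ
    have hre : 0 ≤ (1 - cexp ((θ : ℝ) * I)).re := by
      rw [Complex.sub_re, Complex.one_re, Complex.exp_ofReal_mul_I_re]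
      linarith [Real.cos_le_one θ]
    have hno : ‖1 - cexp ((θ : ℝ) * I)‖ ≤ 2 := by
      refine (norm_sub_le _ _).trans ?_
      rw [Complex.norm_exp_ofReal_mul_I, norm_one]
      norm_num
    have hq := re_q (N := N) hre hno
    have hlow : 2 / Real.pi * |θ| ≤ ‖1 - cexp ((θ : ℝ) * I)‖ := by
      rw [norm_sub_rev, mul_comm ((θ : ℝ) : ℂ) I, Complex.norm_exp_I_mul_ofReal_sub_one]
      have h5 : |θ / 2| ≤ Real.pi / 2 := by
        rw [abs_div, abs_two]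
        linarith
      have h6 := Real.mul_abs_le_abs_sin h5
      rw [Real.norm_eq_abs, abs_mul, abs_two]
      rw [abs_div, abs_two] at h6
      linarith
    have hpi := Real.pi_pos
    have hpi4 := Real.pi_le_four
    have h7 : Real.pi * (2 / Real.pi * |θ|) = 2 * |θ| := by
      field_simp
    have h8 : 2 * |θ| ≤ Real.pi * ‖1 - cexp ((θ : ℝ) * I)‖ := by
      rw [← h7]
      exact mul_le_mul_of_nonneg_left hlow hpi.le
    have h9 : A * (2 * |θ|) ≤ A * (Real.pi * ‖1 - cexp ((θ : ℝ) * I)‖) :=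
      mul_le_mul_of_nonneg_left h8 hA
    have h10 : 4 * Real.pi * A * ((‖1 - cexp ((θ : ℝ) * I)‖ - (1 / 2) ^ N) / 8) ≤
        4 * Real.pi * A * (qf N (1 - cexp ((θ : ℝ) * I))).re :=
      mul_le_mul_of_nonneg_left hq (by positivity)
    have h11 : Real.pi * (A * (1 / 2) ^ N) ≤ 4 * (A * (1 / 2) ^ N) :=
      mul_le_mul_of_nonneg_right hpi4 (by positivity)
    have h12 : 2 * A / 2 ^ N = 2 * (A * (1 / 2) ^ N) := by
      rw [one_div, inv_pow]
      field_simp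
    rw [h12]
    nlinarith
  · intro s hs0 hs1
    have hz : ((s * ρ : ℝ) : ℂ) * cexp (t₁ * I) * cexp (-(t₁ * I)) / ρ = (s : ℂ) := by
      rw [mul_assoc, ← Complex.exp_add, add_neg_cancel, Complex.exp_zero, mul_one]
      push_cast
      field_simp
    simp only [hz]
    rw [Complex.norm_exp, Complex.re_ofReal_mul]
    refine Real.exp_le_exp.2 ?_
    have h1 : (1 - (s : ℂ)) = ((1 - s : ℝ) : ℂ) := by push_cast; ring
    rw [h1]
    have h2 := q_real (N := N) (x := 1 - s) (by linarith)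
    have h3 : 4 * Real.pi * A * (qf N ((1 - s : ℝ) : ℂ)).re ≤
        4 * Real.pi * A * ((N + 1) * (1 - s)) :=
      mul_le_mul_of_nonneg_left h2 (by have := Real.pi_pos; positivity)
    nlinarith

end Pool.Agent.KRB
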