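import Pool.Agent.KRB.Stmts

/-!
# The Korenblum constant: module PH (the phase)
-/

set_option autoImplicit false

namespace Pool.Agent.KRB

open Complex MeasureTheory Set Filter Topology Metric

namespace PHAux

/-- the identity behind the Moebius transformations of the disc -/
theorem key_ineq {a w : ℂ} (ha : ‖a‖ ≤ 1) (hw : ‖w‖ ≤ 1) :
    ‖w - a‖ ≤ ‖1 - (starRingEnd ℂ) a * w‖ := by
  have h1 : ‖w - a‖ ^ 2 ≤ ‖1 - (starRingEnd ℂ) a * w‖ ^ 2 := by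
    have e1 : ‖1 - (starRingEnd ℂ) a * w‖ ^ 2 - ‖w - a‖ ^ 2 = (1 - ‖a‖ ^ 2) * (1 - ‖w‖ ^ 2) := by
      rw [← Complex.normSq_eq_norm_sq, ← Complex.normSq_eq_norm_sq, ← Complex.normSq_eq_norm_sq,
        ← Complex.normSq_eq_norm_sq]
      simp only [Complex.normSq_apply, Complex.sub_re, Complex.sub_im, Complex.mul_re,
        Complex.mul_im, Complex.conj_re, Complex.conj_im, Complex.one_re, Complex.one_im]
      ring
    have e2 : 0 ≤ (1 - ‖a‖ ^ 2) * (1 - ‖w‖ ^ 2) := by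
      apply mul_nonneg
      · nlinarith [norm_nonneg a]
      · nlinarith [norm_nonneg w]
    linarith
  exact le_of_sq_le_sq h1 (norm_nonneg _)

/-- the lemma of Schwarz and Pick at the centre of a disc, strict version -/
theorem pick_strict {g : ℂ → ℂ} {ζ : ℂ} {r : ℝ} (hr : 0 < r) (hd : DifferentiableOn ℂ g (ball ζ r))
    (hb : ∀ z ∈ ball ζ r, ‖g z‖ < 1) : ‖deriv g ζ‖ ≤ (1 - ‖g ζ‖ ^ 2) / r := by
  have hζ : ζ ∈ ball ζ r := mem_ball_self hr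
  have ha : ‖g ζ‖ < 1 := hb ζ hζ
  have hne : ∀ z ∈ ball ζ r, 1 - (starRingEnd ℂ) (g ζ) * g z ≠ 0 := by
    intro z hz h0
    have e1 : (starRingEnd ℂ) (g ζ) * g z = 1 := (sub_eq_zero.1 h0).symm
    have e2 : ‖g ζ‖ * ‖g z‖ = 1 := by
      have := congrArg norm e1
      rwa [norm_mul, RCLike.norm_conj, norm_one] at this
    nlinarith [hb z hz, norm_nonneg (g z), norm_nonneg (g ζ)]
  have hda : DifferentiableAt ℂ g ζ := hd.differentiableAt (isOpen_ball.mem_nhds hζ)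
  have hφd : DifferentiableOn ℂ (fun z => (g z - g ζ) / (1 - (starRingEnd ℂ) (g ζ) * g z))
      (ball ζ r) :=
    (hd.sub (differentiableOn_const _)).div
      ((differentiableOn_const _).sub (hd.const_mul _)) hne
  have hφm : MapsTo (fun z => (g z - g ζ) / (1 - (starRingEnd ℂ) (g ζ) * g z)) (ball ζ r)
      (closedBall ((fun z => (g z - g ζ) / (1 - (starRingEnd ℂ) (g ζ) * g z)) ζ) 1) := by
    intro z hz
    have : (fun z => (g z - g ζ) / (1 - (starRingEnd ℂ) (g ζ) * g z)) ζ = 0 := by simp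
    rw [this, mem_closedBall_zero_iff, norm_div]
    exact div_le_one_of_le₀ (key_ineq ha.le (hb z hz).le) (norm_nonneg _)
  have h := Complex.norm_deriv_le_div_of_mapsTo_ball hφd hφm hr
  have hsq : 0 < 1 - ‖g ζ‖ ^ 2 := by nlinarith [norm_nonneg (g ζ)]
  have hcc : (1 : ℂ) - (starRingEnd ℂ) (g ζ) * g ζ = ((1 - ‖g ζ‖ ^ 2 : ℝ) : ℂ) := by
    rw [← Complex.normSq_eq_conj_mul_self, Complex.normSq_eq_norm_sq]
    push_cast
    ring
  have hD : HasDerivAt (fun z => (g z - g ζ) / (1 - (starRingEnd ℂ) (g ζ) * g z))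
      (deriv g ζ / ((1 - ‖g ζ‖ ^ 2 : ℝ) : ℂ)) ζ := by
    have h1 : HasDerivAt (fun z => g z - g ζ) (deriv g ζ) ζ := hda.hasDerivAt.sub_const _
    have h2 : HasDerivAt (fun z => 1 - (starRingEnd ℂ) (g ζ) * g z)
        (-((starRingEnd ℂ) (g ζ) * deriv g ζ)) ζ := (hda.hasDerivAt.const_mul _).const_sub 1
    have h3 := h1.div h2 (hne ζ hζ)
    rw [hcc] at h3
    have hne' : ((1 - ‖g ζ‖ ^ 2 : ℝ) : ℂ) ≠ 0 := by
      exact_mod_cast hsq.ne'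
    have e4 : (deriv g ζ * ((1 - ‖g ζ‖ ^ 2 : ℝ) : ℂ) -
        (g ζ - g ζ) * -((starRingEnd ℂ) (g ζ) * deriv g ζ)) / ((1 - ‖g ζ‖ ^ 2 : ℝ) : ℂ) ^ 2 =
        deriv g ζ / ((1 - ‖g ζ‖ ^ 2 : ℝ) : ℂ) := by
      rw [sub_self, zero_mul, sub_zero, sq ((1 - ‖g ζ‖ ^ 2 : ℝ) : ℂ),
        mul_div_mul_right _ _ hne']
    rw [e4] at h3
    exact h3
  rw [hD.deriv, norm_div, Complex.norm_real, Real.norm_of_nonneg hsq.le] at h
  rw [div_le_iff₀ hsq] at h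
  calc ‖deriv g ζ‖ ≤ 1 / r * (1 - ‖g ζ‖ ^ 2) := h
    _ = (1 - ‖g ζ‖ ^ 2) / r := by ring

/-- the lemma of Schwarz and Pick at the centre of a disc -/
theorem pick {g : ℂ → ℂ} {ζ : ℂ} {r : ℝ} (hr : 0 < r) (hd : DifferentiableOn ℂ g (ball ζ r))
    (hb : ∀ z ∈ ball ζ r, ‖g z‖ ≤ 1) : ‖deriv g ζ‖ ≤ 2 / r * (1 - ‖g ζ‖) := by
  have hζ : ζ ∈ ball ζ r := mem_ball_self hr
  have hda : DifferentiableAt ℂ g ζ := hd.differentiableAt (isOpen_ball.mem_nhds hζ)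
  have h1 : ∀ k : ℝ, 0 < k → k < 1 → k * ‖deriv g ζ‖ ≤ (1 - (k * ‖g ζ‖) ^ 2) / r := by
    intro k hk0 hk1
    have hd' : DifferentiableOn ℂ (fun z => (k : ℂ) * g z) (ball ζ r) := hd.const_mul _
    have hb' : ∀ z ∈ ball ζ r, ‖(k : ℂ) * g z‖ < 1 := by
      intro z hz
      rw [norm_mul, Complex.norm_real, Real.norm_of_nonneg hk0.le]
      nlinarith [hb z hz, norm_nonneg (g z)]
    have h := pick_strict hr hd' hb'
    rw [(hda.hasDerivAt.const_mul (k : ℂ)).deriv] at h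
    rw [norm_mul, norm_mul, Complex.norm_real, Real.norm_of_nonneg hk0.le] at h
    exact h
  have t1 : Tendsto (fun k : ℝ => k * ‖deriv g ζ‖) (𝓝[<] 1) (𝓝 (1 * ‖deriv g ζ‖)) :=
    ((continuous_id.mul continuous_const).tendsto 1).mono_left nhdsWithin_le_nhds
  have t2 : Tendsto (fun k : ℝ => (1 - (k * ‖g ζ‖) ^ 2) / r) (𝓝[<] 1)
      (𝓝 ((1 - (1 * ‖g ζ‖) ^ 2) / r)) := by
    have hc : Continuous (fun k : ℝ => (1 - (k * ‖g ζ‖) ^ 2) / r) := by fun_prop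
    exact (hc.tendsto 1).mono_left nhdsWithin_le_nhds
  have hev : ∀ᶠ k : ℝ in 𝓝[<] 1, k * ‖deriv g ζ‖ ≤ (1 - (k * ‖g ζ‖) ^ 2) / r := by
    have h01 : Ioo (0 : ℝ) 1 ∈ 𝓝[<] (1 : ℝ) := Ioo_mem_nhdsLT one_pos
    filter_upwards [h01] with k hk
    exact h1 k hk.1 hk.2
  have h2 := le_of_tendsto_of_tendsto t1 t2 hev
  rw [one_mul, one_mul] at h2
  refine h2.trans ?_
  rw [div_mul_eq_mul_div]
  apply div_le_div_of_nonneg_right _ hr.le
  nlinarith [hb ζ hζ, norm_nonneg (g ζ)]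

/-- Gronwall -/
theorem gron {V V' : ℝ → ℂ} {A : ℝ} (hA : 0 < A) (hV : ∀ x, HasDerivAt V (V' x) x)
    (hb : ∀ x, ‖V' x‖ ≤ A * (1 - ‖V x‖)) (x : ℝ) (hx : 0 ≤ x) :
    ‖V x - V 0‖ ≤ (1 - ‖V 0‖) * (Real.exp (A * x) - 1) := by
  have h := norm_le_gronwallBound_of_norm_deriv_right_le (f := fun y => V y - V 0) (f' := V')
    (δ := 0) (K := A) (ε := A * (1 - ‖V 0‖)) (a := 0) (b := x)
    (fun y _ => ((hV y).sub_const _).continuousAt.continuousWithinAt)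
    (fun y _ => ((hV y).sub_const _).hasDerivWithinAt) (by simp)
    (by
      intro y _
      have h1 : ‖V 0‖ ≤ ‖V y‖ + ‖V y - V 0‖ := by
        have := norm_sub_norm_le (V 0) (V y)
        rw [norm_sub_rev] at this
        linarith
      calc ‖V' y‖ ≤ A * (1 - ‖V y‖) := hb y
        _ ≤ A * (‖V y - V 0‖ + (1 - ‖V 0‖)) := by
          apply mul_le_mul_of_nonneg_left _ hA.le
          linarith
        _ = A * ‖V y - V 0‖ + A * (1 - ‖V 0‖) := by ring) x ⟨hx, le_refl _⟩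
  rw [gronwallBound_of_K_ne_0 hA.ne'] at h
  simp only [zero_mul, zero_add, sub_zero] at h
  rwa [mul_div_cancel_left₀ _ hA.ne'] at h

/-- Gronwall in both directions -/
theorem gron2 {V V' : ℝ → ℂ} {A : ℝ} (hA : 0 < A) (hV : ∀ x, HasDerivAt V (V' x) x)
    (hb : ∀ x, ‖V' x‖ ≤ A * (1 - ‖V x‖)) (t s : ℝ) :
    ‖V s - V t‖ ≤ (1 - ‖V t‖) * (Real.exp (A * |t - s|) - 1) := by
  rcases le_total t s with h | h
  · have e := gron (V := fun x => V (t + x)) (V' := fun x => V' (t + x)) hA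
      (fun x => (hV (t + x)).comp_const_add t x) (fun x => hb (t + x)) (s - t) (sub_nonneg.2 h)
    simp only [add_sub_cancel, add_zero] at e
    rw [abs_sub_comm, abs_of_nonneg (sub_nonneg.2 h)]
    exact e
  · have e := gron (V := fun x => V (t - x)) (V' := fun x => -V' (t - x)) hA
      (fun x => (hV (t - x)).comp_const_sub t x) (fun x => by rw [norm_neg]; exact hb (t - x)) (t - s)
        (sub_nonneg.2 h)
    simp only [sub_sub_cancel, sub_zero] at e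
    rw [abs_of_nonneg (sub_nonneg.2 h)]
    exact e

end PHAux

open PHAux in
/-- **PH** -/
theorem ph : S_PH := by
  intro ω c ρ r₀ hr₀ hρ hc h1 hd hb t₁
  have hnorm : ∀ t : ℝ, ‖(ρ : ℂ) * cexp (t * I)‖ = ρ := by
    intro t
    rw [norm_mul, Complex.norm_exp_ofReal_mul_I, mul_one, Complex.norm_real,
      Real.norm_of_nonneg hρ.le]
  have hsub : ∀ t : ℝ, ball ((ρ : ℂ) * cexp (t * I)) r₀ ⊆ {z | c < ‖z‖ ∧ ‖z‖ < 1} := by
    intro t z hz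
    rw [mem_ball, dist_eq_norm] at hz
    have e1 := norm_sub_norm_le ((ρ : ℂ) * cexp (t * I)) z
    have e2 := norm_sub_norm_le z ((ρ : ℂ) * cexp (t * I))
    rw [norm_sub_rev] at e1
    rw [hnorm] at e1 e2
    exact ⟨by linarith, by linarith⟩
  have hA : 0 < 2 * ρ / r₀ := by positivity
  have hcur : ∀ t : ℝ, HasDerivAt (fun s : ℝ => (ρ : ℂ) * cexp (s * I))
      ((ρ : ℂ) * (cexp (t * I) * I)) t := by
    intro t
    have h0 : HasDerivAt (fun s : ℝ => (s : ℂ) * I) I t := by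
      have := (Complex.ofRealCLM.hasDerivAt (x := t)).mul_const I
      simpa using this
    exact (h0.cexp).const_mul _
  have hV : ∀ t : ℝ, HasDerivAt (fun s : ℝ => ω ((ρ : ℂ) * cexp (s * I)))
      (deriv ω ((ρ : ℂ) * cexp (t * I)) * ((ρ : ℂ) * (cexp (t * I) * I))) t := by
    intro t
    have hda : DifferentiableAt ℂ ω ((ρ : ℂ) * cexp (t * I)) :=
      (hd.mono (hsub t)).differentiableAt (isOpen_ball.mem_nhds (mem_ball_self hr₀))
    exact HasDerivAt.comp t hda.hasDerivAt (hcur t)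
  have hVb : ∀ t : ℝ, ‖deriv ω ((ρ : ℂ) * cexp (t * I)) * ((ρ : ℂ) * (cexp (t * I) * I))‖ ≤
      2 * ρ / r₀ * (1 - ‖ω ((ρ : ℂ) * cexp (t * I))‖) := by
    intro t
    have h := pick hr₀ (hd.mono (hsub t)) (fun z hz => hb z (hsub t hz).1 (hsub t hz).2)
    have e : ‖(ρ : ℂ) * (cexp (t * I) * I)‖ = ρ := by
      rw [← mul_assoc, norm_mul, hnorm, Complex.norm_I, mul_one]
    rw [norm_mul, e]
    calc ‖deriv ω ((ρ : ℂ) * cexp (t * I))‖ * ρ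
        ≤ (2 / r₀ * (1 - ‖ω ((ρ : ℂ) * cexp (t * I))‖)) * ρ :=
          mul_le_mul_of_nonneg_right h hρ.le
      _ = 2 * ρ / r₀ * (1 - ‖ω ((ρ : ℂ) * cexp (t * I))‖) := by ring
  have hle : ∀ t : ℝ, ‖ω ((ρ : ℂ) * cexp (t * I))‖ ≤ 1 := fun t =>
    hb _ (hsub t (mem_ball_self hr₀)).1 (hsub t (mem_ball_self hr₀)).2
  -- the unimodular number
  obtain ⟨u, hu1, hu2⟩ : ∃ u : ℂ, ‖u‖ = 1 ∧ ‖ω ((ρ : ℂ) * cexp (t₁ * I)) - u‖ =
      1 - ‖ω ((ρ : ℂ) * cexp (t₁ * I))‖ := by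
    by_cases h0 : ω ((ρ : ℂ) * cexp (t₁ * I)) = 0
    · refine ⟨1, norm_one, ?_⟩
      rw [h0]
      simp
    · have hp : 0 < ‖ω ((ρ : ℂ) * cexp (t₁ * I))‖ := norm_pos_iff.2 h0
      have hpc : ((‖ω ((ρ : ℂ) * cexp (t₁ * I))‖ : ℝ) : ℂ) ≠ 0 := by exact_mod_cast hp.ne'
      refine ⟨ω ((ρ : ℂ) * cexp (t₁ * I)) / ‖ω ((ρ : ℂ) * cexp (t₁ * I))‖, ?_, ?_⟩
      · rw [norm_div, Complex.norm_real, norm_norm, div_self hp.ne']
      · have e : ω ((ρ : ℂ) * cexp (t₁ * I)) -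
            ω ((ρ : ℂ) * cexp (t₁ * I)) / ‖ω ((ρ : ℂ) * cexp (t₁ * I))‖ =
            ω ((ρ : ℂ) * cexp (t₁ * I)) / ‖ω ((ρ : ℂ) * cexp (t₁ * I))‖ *
              (((‖ω ((ρ : ℂ) * cexp (t₁ * I))‖ - 1 : ℝ)) : ℂ) := by
          push_cast
          field_simp
        rw [e, norm_mul, norm_div, Complex.norm_real, norm_norm, div_self hp.ne', one_mul,
          Complex.norm_real, Real.norm_eq_abs, abs_of_nonpos (by linarith [hle t₁])]
        ring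
  refine ⟨u, hu1, fun t => ?_⟩
  have hg := gron2 hA hV hVb t t₁
  have hm0 : 0 ≤ 1 - ‖ω ((ρ : ℂ) * cexp (t * I))‖ := sub_nonneg.2 (hle t)
  have e1 : ‖ω ((ρ : ℂ) * cexp (t * I)) - u‖ ≤
      ‖ω ((ρ : ℂ) * cexp (t₁ * I)) - ω ((ρ : ℂ) * cexp (t * I))‖ +
        ‖ω ((ρ : ℂ) * cexp (t₁ * I)) - u‖ := by
    rw [norm_sub_rev (ω ((ρ : ℂ) * cexp (t₁ * I))) (ω ((ρ : ℂ) * cexp (t * I)))]
    exact norm_sub_le_norm_sub_add_norm_sub _ _ _
  have e2 : ‖ω ((ρ : ℂ) * cexp (t * I))‖ ≤ ‖ω ((ρ : ℂ) * cexp (t₁ * I))‖ +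
      ‖ω ((ρ : ℂ) * cexp (t₁ * I)) - ω ((ρ : ℂ) * cexp (t * I))‖ := by
    have := norm_sub_norm_le (ω ((ρ : ℂ) * cexp (t * I))) (ω ((ρ : ℂ) * cexp (t₁ * I)))
    rw [norm_sub_rev] at this
    linarith
  rw [hu2] at e1
  have hexp : 1 ≤ Real.exp (2 * ρ / r₀ * |t - t₁|) := Real.one_le_exp (by positivity)
  nlinarith

end Pool.Agent.KRB
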