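import Pool.Agent.KRB.Stmts

/-!
# The Korenblum constant: integrals over annuli
-/

set_option autoImplicit false

namespace Pool.Agent.KRB

open Complex MeasureTheory Set Filter Topology Metric

namespace POLAux

theorem symm_eq (r θ : ℝ) : Complex.polarCoord.symm (r, θ) = circleMap 0 r θ := by
  rw [Complex.polarCoord_symm_apply]
  unfold circleMap
  rw [zero_add, Complex.exp_mul_I]
  push_cast
  rfl

theorem norm_circleMap {r : ℝ} (hr : 0 < r) (θ : ℝ) : ‖circleMap 0 r θ‖ = r := by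
  rw [norm_circleMap_zero, abs_of_pos hr]

theorem contOn {Φ : ℂ → ℝ} {a b : ℝ} (ha : 0 < a) (hb : b < 1) (hΦ : ContinuousOn Φ (ball 0 1))
    (s : Set ℝ) :
    ContinuousOn (fun p : ℝ × ℝ => p.1 * Φ (circleMap 0 p.1 p.2)) (Icc a b ×ˢ s) := by
  apply continuousOn_fst.mul
  refine hΦ.comp (f := fun p : ℝ × ℝ => circleMap 0 p.1 p.2) ?_ ?_
  · exact (Real.circleMap.continuous (c := 0)).continuousOn
  · rintro ⟨r, θ⟩ ⟨hr, -⟩
    rw [mem_ball_zero_iff]
    show ‖circleMap 0 r θ‖ < 1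
    rw [norm_circleMap (ha.trans_le hr.1)]
    exact hr.2.trans_lt hb

/-- The angular integral over `(-π, π)`. -/
theorem angular (Φ : ℂ → ℝ) (r : ℝ) :
    ∫ θ in Ioo (-Real.pi) Real.pi, Φ (circleMap 0 r θ) =
      2 * Real.pi * Real.circleAverage Φ 0 r := by
  have h1 : Real.circleAverage Φ 0 r =
      (2 * Real.pi)⁻¹ • ∫ θ in (-Real.pi)..Real.pi, Φ (circleMap 0 r θ) := by
    rw [Real.circleAverage_eq_integral_add (-Real.pi),
      intervalIntegral.integral_comp_add_right (fun θ => Φ (circleMap 0 r θ))]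
    congr 2
    · ring
    · ring
  rw [h1, intervalIntegral.integral_of_le (by linarith [Real.pi_pos]),
    integral_Ioc_eq_integral_Ioo, smul_eq_mul, ← mul_assoc, mul_inv_cancel₀ (by positivity),
    one_mul]

/-- Polar coordinates in an annulus. -/
theorem annulus {Φ : ℂ → ℝ} {a b : ℝ} (ha : 0 < a) (hb : b < 1)
    (hΦ : ContinuousOn Φ (ball 0 1)) :
    ∫ z in {z : ℂ | a < ‖z‖ ∧ ‖z‖ < b}, Φ z =
      ∫ r in Ioo a b, r * (2 * Real.pi * Real.circleAverage Φ 0 r) := by
  have hA : MeasurableSet {z : ℂ | a < ‖z‖ ∧ ‖z‖ < b} :=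
    (measurableSet_lt measurable_const measurable_norm).inter
      (measurableSet_lt measurable_norm measurable_const)
  have hcon := contOn ha hb hΦ (Icc (-Real.pi) Real.pi)
  have hpi := Real.pi_pos
  rw [← integral_indicator hA, ← Complex.integral_comp_polarCoord_symm,
    polarCoord_target]
  have h2 : ∫ p in Ioi (0 : ℝ) ×ˢ Ioo (-Real.pi) Real.pi,
      p.1 • ({z : ℂ | a < ‖z‖ ∧ ‖z‖ < b}.indicator Φ (Complex.polarCoord.symm p)) =
      ∫ p in Ioi (0 : ℝ) ×ˢ Ioo (-Real.pi) Real.pi,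
        (Ioo a b ×ˢ Ioo (-Real.pi) Real.pi).indicator
          (fun p : ℝ × ℝ => p.1 * Φ (circleMap 0 p.1 p.2)) p := by
    refine setIntegral_congr_fun (measurableSet_Ioi.prod measurableSet_Ioo) ?_
    rintro ⟨r, θ⟩ ⟨hr, hθ⟩
    have hr' : 0 < r := hr
    show r • ({z : ℂ | a < ‖z‖ ∧ ‖z‖ < b}.indicator Φ (Complex.polarCoord.symm (r, θ))) = _
    rw [symm_eq, smul_eq_mul]
    by_cases hm : r ∈ Ioo a b
    · rw [indicator_of_mem (show (r, θ) ∈ Ioo a b ×ˢ Ioo (-Real.pi) Real.pi from ⟨hm, hθ⟩),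
        indicator_of_mem]
      show a < ‖circleMap 0 r θ‖ ∧ ‖circleMap 0 r θ‖ < b
      rw [norm_circleMap hr']
      exact hm
    · rw [indicator_of_notMem (show (r, θ) ∉ Ioo a b ×ˢ Ioo (-Real.pi) Real.pi from
        fun h => hm h.1), indicator_of_notMem, mul_zero]
      intro h
      have h' : a < ‖circleMap 0 r θ‖ ∧ ‖circleMap 0 r θ‖ < b := h
      rw [norm_circleMap hr'] at h'
      exact hm h'
  rw [h2, setIntegral_indicator (measurableSet_Ioo.prod measurableSet_Ioo)]
  have h3 : Ioi (0 : ℝ) ×ˢ Ioo (-Real.pi) Real.pi ∩ Ioo a b ×ˢ Ioo (-Real.pi) Real.pi =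
      Ioo a b ×ˢ Ioo (-Real.pi) Real.pi := by
    apply inter_eq_right.2
    rintro ⟨r, θ⟩ ⟨hr, hθ⟩
    exact ⟨ha.trans hr.1, hθ⟩
  rw [h3, Measure.volume_eq_prod, setIntegral_prod]
  · refine setIntegral_congr_fun measurableSet_Ioo fun r _ => ?_
    show ∫ θ in Ioo (-Real.pi) Real.pi, r * Φ (circleMap 0 r θ) = _
    rw [MeasureTheory.integral_const_mul, angular]
  · rw [← Measure.volume_eq_prod]
    refine IntegrableOn.mono_set ?_ (prod_mono Ioo_subset_Icc_self Ioo_subset_Icc_self)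
    exact hcon.integrableOn_compact (isCompact_Icc.prod isCompact_Icc)

end POLAux

open POLAux in
theorem pol : S_POL := by
  intro Φ a b M ha hab hb hM hΦ hC
  have ha0 : 0 < a := by linarith
  rw [annulus ha0 hb hΦ]
  have hpi := Real.pi_pos
  have hcA : ContinuousOn (Real.circleAverage Φ 0) (Icc a b) := by
    apply Real.ContinuousOn.circleAverage
    · refine hΦ.mono ?_
      intro z hz
      have hz' : ‖z - 0‖ ∈ Icc a b := hz
      rw [sub_zero] at hz'
      rw [mem_ball_zero_iff]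
      exact hz'.2.trans_lt hb
    · intro r hr
      exact ha0.le.trans hr.1
  have hc : ContinuousOn (fun r => r * (2 * Real.pi * Real.circleAverage Φ 0 r)) (Icc a b) :=
    continuousOn_id.mul (continuousOn_const.mul hcA)
  have hi : IntegrableOn (fun r => r * (2 * Real.pi * Real.circleAverage Φ 0 r)) (Ioo a b) :=
    (hc.integrableOn_compact isCompact_Icc).mono_set Ioo_subset_Icc_self
  have h1 : ∫ _r in Ioo a b, M * Real.pi = M * (Real.pi * (b - a)) := by
    rw [setIntegral_const, smul_eq_mul, measureReal_def, Real.volume_Ioo,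
      ENNReal.toReal_ofReal (by linarith)]
    ring
  rw [← h1]
  refine setIntegral_mono_on (integrableOn_const (by simp)) hi measurableSet_Ioo ?_
  intro r hr
  have h2 := hC r hr
  have h3 : 1 / 2 ≤ r := ha.trans hr.1.le
  have h4 : M * Real.pi ≤ Real.circleAverage Φ 0 r * Real.pi :=
    mul_le_mul_of_nonneg_right h2 hpi.le
  have h5 : 0 ≤ Real.circleAverage Φ 0 r * Real.pi := mul_nonneg (hM.trans h2) hpi.le
  nlinarith

end Pool.Agent.KRB
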