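import Pool.Agent.KRB.Stmts
import Pool.Agent.Lib_helper51.SubMean

/-!
# The sub-mean value inequality off the centre
-/

set_option autoImplicit false

namespace Pool.Agent.KRB

open Complex MeasureTheory Set Filter Topology Metric

namespace PTAux

lemma norm_avg_le (G : ℂ → ℂ) (r : ℝ) :
    ‖Real.circleAverage G 0 r‖ ≤ Real.circleAverage (fun w => ‖G w‖) 0 r := by
  unfold Real.circleAverage
  rw [norm_smul, smul_eq_mul, Real.norm_of_nonneg (by positivity)]
  refine mul_le_mul_of_nonneg_left ?_ (by positivity)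
  exact intervalIntegral.norm_integral_le_integral_norm Real.two_pi_pos.le

lemma cauchy {F : ℂ → ℂ} (hF : Differentiable ℂ F) {r : ℝ} (hr : 0 < r) {z : ℂ} (hz : ‖z‖ < r) :
    (r - ‖z‖) * ‖F z‖ ≤ r * Real.circleAverage (fun w => ‖F w‖) 0 r := by
  have hd : DiffContOnCl ℂ F (ball 0 |r|) := hF.diffContOnCl
  have hzb : z ∈ ball (0 : ℂ) |r| := by
    rw [abs_of_pos hr, mem_ball_zero_iff]
    exact hz
  have h1 := hd.circleAverage_smul_div hzb
  have h2 := norm_avg_le (fun w => ((w - 0) / (w - z)) • F w) r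
  rw [h1] at h2
  have hpos : 0 < r - ‖z‖ := by linarith
  have hne : ∀ w ∈ sphere (0 : ℂ) |r|, r - ‖z‖ ≤ ‖w - z‖ := by
    intro w hw
    rw [abs_of_pos hr, mem_sphere_zero_iff_norm] at hw
    have := norm_sub_norm_le w z
    rw [hw] at this
    exact this
  have hc : Continuous F := hF.continuous
  have h3 : Real.circleAverage (fun w => ‖((w - 0) / (w - z)) • F w‖) 0 r ≤
      Real.circleAverage (fun w => r / (r - ‖z‖) * ‖F w‖) 0 r := by
    refine Real.circleAverage_mono ?_ ?_ ?_
    · refine ContinuousOn.circleIntegrable hr.le ?_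
      refine ContinuousOn.norm ?_
      simp only [smul_eq_mul]
      refine ContinuousOn.mul ?_ hc.continuousOn
      refine ContinuousOn.div (by fun_prop) (by fun_prop) ?_
      intro w hw
      have h4 := hne w (by rwa [abs_of_pos hr])
      have : 0 < ‖w - z‖ := hpos.trans_le h4
      exact norm_pos_iff.1 this
    · exact ContinuousOn.circleIntegrable hr.le (by fun_prop)
    · intro w hw
      have h4 := hne w hw
      rw [abs_of_pos hr, mem_sphere_zero_iff_norm] at hw
      rw [norm_smul, sub_zero, norm_div, hw]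
      refine mul_le_mul_of_nonneg_right ?_ (norm_nonneg _)
      exact div_le_div_of_nonneg_left hr.le hpos h4
  have h4 : Real.circleAverage (fun w => r / (r - ‖z‖) * ‖F w‖) 0 r =
      r / (r - ‖z‖) * Real.circleAverage (fun w => ‖F w‖) 0 r := by
    have := Real.circleAverage_smul (c := (0 : ℂ)) (R := r) (a := r / (r - ‖z‖))
      (f := fun w => ‖F w‖)
    exact this
  rw [h4] at h3
  have h5 := h2.trans h3
  calc (r - ‖z‖) * ‖F z‖ ≤ (r - ‖z‖) * (r / (r - ‖z‖) *
        Real.circleAverage (fun w => ‖F w‖) 0 r) := mul_le_mul_of_nonneg_left h5 hpos.le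
    _ = r * Real.circleAverage (fun w => ‖F w‖) 0 r := by
        field_simp

/-- the retraction onto the closed ball -/
noncomputable def ret (r : ℝ) (w : ℂ) : ℂ := ((r / max r ‖w‖ : ℝ) : ℂ) * w

lemma ret_cont {r : ℝ} (hr : 0 < r) : Continuous (ret r) := by
  unfold ret
  refine Continuous.mul ?_ continuous_id
  refine Complex.continuous_ofReal.comp ?_
  refine Continuous.div continuous_const (by fun_prop) ?_
  intro w
  exact (hr.trans_le (le_max_left _ _)).ne'

lemma ret_mem {r : ℝ} (hr : 0 < r) (w : ℂ) : ret r w ∈ closedBall (0 : ℂ) r := by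
  rw [mem_closedBall_zero_iff]
  unfold ret
  have h1 : 0 < max r ‖w‖ := hr.trans_le (le_max_left _ _)
  rw [norm_mul, Complex.norm_real, Real.norm_of_nonneg (by positivity), div_mul_eq_mul_div,
    div_le_iff₀ h1]
  exact mul_le_mul_of_nonneg_left (le_max_right _ _) hr.le

lemma ret_sphere {r : ℝ} (hr : 0 < r) {w : ℂ} (hw : ‖w‖ = r) : ret r w = w := by
  unfold ret
  rw [hw, max_self, div_self hr.ne', Complex.ofReal_one, one_mul]

end PTAux

open PTAux in
theorem pt (hM : S_MAXP) : S_PT := by
  intro g h r r' q hr hrr hq hg hh z hz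
  have hsub : closedBall (0 : ℂ) r ⊆ ball 0 r' := closedBall_subset_ball hrr
  have hgc : ContinuousOn g (closedBall 0 r) := hg.continuousOn.mono hsub
  have hhc : ContinuousOn h (closedBall 0 r) := hh.continuousOn.mono hsub
  set Ψ : ℂ → ℝ := fun w => ‖g w‖ ^ q * ‖h w‖ with hΨ
  have hΨ0 : ∀ w, 0 ≤ Ψ w := fun w => by positivity
  have hΨc : ContinuousOn Ψ (closedBall 0 r) :=
    (hgc.norm.rpow_const fun w _ => Or.inr hq).mul hhc.norm
  have hΨs : ContinuousOn Ψ (sphere 0 r) := hΨc.mono sphere_subset_closedBall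
  have hΨi : CircleIntegrable Ψ 0 r := hΨs.circleIntegrable hr.le
  set a : ℝ := Real.circleAverage Ψ 0 r with ha
  have ha0 : 0 ≤ a := Real.circleAverage_nonneg_of_nonneg fun w _ => hΨ0 w
  have key : ∀ ε : ℝ, 0 < ε → (r - ‖z‖) * Ψ z ≤ Real.exp (2 * ε) * (r * (a + ε)) := by
    intro ε hε
    have hU : Continuous fun w => Real.log (Ψ (ret r w) + ε) := by
      refine Continuous.log ?_ ?_
      · exact (hΨc.comp_continuous (ret_cont hr) (ret_mem hr)).add continuous_const
      · intro w
        have := hΨ0 (ret r w)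
        positivity
    obtain ⟨H, hH, hHa⟩ := Pool.Agent.Lib_helper51.exists_entire_approx _ hU 0 hr hε
    have hHs : ∀ w ∈ sphere (0 : ℂ) r, |(H w).re - Real.log (Ψ w + ε)| ≤ ε := by
      intro w hw
      have h1 := hHa w hw
      rw [ret_sphere hr (mem_sphere_zero_iff_norm.1 hw)] at h1
      exact h1
    have hpos : ∀ w, 0 < Ψ w + ε := fun w => by
      have := hΨ0 w
      positivity
    -- maximum principle
    have h1 := hM g (fun w => h w * cexp (-H w)) r q (Real.exp ε) hr hq hgc
      (hhc.mul hH.neg.cexp.continuous.continuousOn) (hg.mono (ball_subset_ball hrr.le))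
      ((hh.mono (ball_subset_ball hrr.le)).mul hH.neg.cexp.differentiableOn) (by
        intro w hw
        have h2 := abs_le.1 (hHs w hw)
        rw [norm_mul, Complex.norm_exp, Complex.neg_re, ← mul_assoc]
        have h3 : -(H w).re ≤ ε - Real.log (Ψ w + ε) := by linarith [h2.1]
        have h4 : Real.exp (-(H w).re) ≤ Real.exp ε / (Ψ w + ε) := by
          refine (Real.exp_le_exp.2 h3).trans (le_of_eq ?_)
          rw [Real.exp_sub, Real.exp_log (hpos w)]
        calc ‖g w‖ ^ q * ‖h w‖ * Real.exp (-(H w).re) ≤ Ψ w * (Real.exp ε / (Ψ w + ε)) :=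
              mul_le_mul_of_nonneg_left h4 (hΨ0 w)
          _ ≤ (Ψ w + ε) * (Real.exp ε / (Ψ w + ε)) := by
              refine mul_le_mul_of_nonneg_right (by linarith) ?_
              have := hpos w
              positivity
          _ = Real.exp ε := by
              have := (hpos w).ne'
              field_simp) z (mem_closedBall_zero_iff.2 hz.le)
    have h2 : Ψ z ≤ Real.exp ε * ‖cexp (H z)‖ := by
      rw [norm_mul, Complex.norm_exp, Complex.neg_re, ← mul_assoc] at h1
      rw [Complex.norm_exp]
      have h3 : Ψ z = (‖g z‖ ^ q * ‖h z‖ * Real.exp (-(H z).re)) * Real.exp (H z).re := by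
        rw [mul_assoc, ← Real.exp_add, neg_add_cancel, Real.exp_zero, mul_one]
      rw [h3]
      exact mul_le_mul_of_nonneg_right h1 (Real.exp_pos _).le
    have hF : Differentiable ℂ fun w => cexp (H w) := hH.cexp
    have h3 := cauchy hF hr hz
    have h4 : Real.circleAverage (fun w => ‖cexp (H w)‖) 0 r ≤ Real.exp ε * (a + ε) := by
      have h5 : Real.circleAverage (fun w => ‖cexp (H w)‖) 0 r ≤
          Real.circleAverage (fun w => Real.exp ε * (Ψ w + ε)) 0 r := by
        refine Real.circleAverage_mono ?_ ?_ ?_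
        · exact ContinuousOn.circleIntegrable hr.le hF.continuous.norm.continuousOn
        · exact ContinuousOn.circleIntegrable hr.le
            (continuousOn_const.mul (hΨs.add continuousOn_const))
        · intro w hw
          rw [abs_of_pos hr] at hw
          have h6 := abs_le.1 (hHs w hw)
          rw [Complex.norm_exp]
          have h7 : (H w).re ≤ ε + Real.log (Ψ w + ε) := by linarith [h6.2]
          refine (Real.exp_le_exp.2 h7).trans (le_of_eq ?_)
          rw [Real.exp_add, Real.exp_log (hpos w)]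
      refine h5.trans (le_of_eq ?_)
      have e1 := Real.circleAverage_smul (c := (0 : ℂ)) (R := r) (a := Real.exp ε)
        (f := fun w => Ψ w + ε)
      have e2 := Real.circleAverage_fun_add (c := (0 : ℂ)) (R := r) (f₁ := Ψ)
        (f₂ := fun _ => ε) hΨi (circleIntegrable_const _ _ _)
      have e3 : Real.circleAverage (fun _ : ℂ => ε) 0 r = ε := Real.circleAverage_const _ _ _
      rw [e3] at e2
      refine Eq.trans e1 ?_
      rw [e2, smul_eq_mul]
    have hzr : 0 ≤ r - ‖z‖ := by linarith
    calc (r - ‖z‖) * Ψ z ≤ (r - ‖z‖) * (Real.exp ε * ‖cexp (H z)‖) :=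
          mul_le_mul_of_nonneg_left h2 hzr
      _ = Real.exp ε * ((r - ‖z‖) * ‖cexp (H z)‖) := by ring
      _ ≤ Real.exp ε * (r * (Real.exp ε * (a + ε))) := by
          refine mul_le_mul_of_nonneg_left ?_ (Real.exp_pos _).le
          exact h3.trans (mul_le_mul_of_nonneg_left h4 hr.le)
      _ = Real.exp (2 * ε) * (r * (a + ε)) := by
          rw [two_mul, Real.exp_add]
          ring
  have hlim : Tendsto (fun ε : ℝ => Real.exp (2 * ε) * (r * (a + ε))) (𝓝[>] 0)
      (𝓝 (r * a)) := by
    have hc : Continuous fun ε : ℝ => Real.exp (2 * ε) * (r * (a + ε)) := by fun_prop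
    have h1 := hc.tendsto 0
    simp only [mul_zero, Real.exp_zero, add_zero, one_mul] at h1
    exact h1.mono_left nhdsWithin_le_nhds
  have h1 : (r - ‖z‖) * Ψ z ≤ r * a := by
    refine ge_of_tendsto hlim ?_
    filter_upwards [self_mem_nhdsWithin] with ε hε
    exact key ε hε
  have h2 : 0 ≤ r * a := by positivity
  calc (r - ‖z‖) * (‖g z‖ ^ q * ‖h z‖) ≤ r * a := h1
    _ ≤ 2 * r * a := by linarith

end Pool.Agent.KRB
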