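import Pool.Agent.KRB.Stmts

/-!
# Module RAD: radial integrals
-/

set_option autoImplicit false

namespace Pool.Agent.KRB

open Complex MeasureTheory Set Metric

namespace RADAux

/-- Radial integral over the unit disc. -/
lemma radial (F : ℝ → ℝ) : ∫ z in ball (0 : ℂ) 1, F ‖z‖ =
    2 * Real.pi * ∫ y in (0 : ℝ)..1, y * F y := by
  have h1 : ∫ z in ball (0 : ℂ) 1, F ‖z‖ = ∫ z : ℂ, (Iio (1 : ℝ)).indicator F ‖z‖ := by
    rw [← integral_indicator measurableSet_ball]
    congr 1
    ext z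
    by_cases hz : ‖z‖ < 1
    · rw [indicator_of_mem (by simpa using hz), indicator_of_mem (by simpa using hz)]
    · rw [indicator_of_notMem (by simpa using hz), indicator_of_notMem (by simpa using hz)]
  rw [h1, integral_fun_norm_addHaar volume ((Iio (1 : ℝ)).indicator F)]
  have h2 : (volume : Measure ℂ).real (ball 0 1) = Real.pi := by
    rw [Measure.real, Complex.volume_ball]
    simp
  rw [h2, Complex.finrank_real_complex, intervalIntegral.integral_of_le zero_le_one]
  have h3 : ∫ y in Ioi (0 : ℝ), y ^ (2 - 1) • (Iio (1 : ℝ)).indicator F y =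
      ∫ y in Ioc (0 : ℝ) 1, y * F y := by
    rw [integral_Ioc_eq_integral_Ioo, ← integral_indicator measurableSet_Ioi,
      ← integral_indicator measurableSet_Ioo]
    congr 1
    ext y
    by_cases hy : y ∈ Ioi (0 : ℝ)
    · rw [indicator_of_mem hy]
      by_cases hy1 : y ∈ Iio (1 : ℝ)
      · have hm : y ∈ Ioo (0 : ℝ) 1 := ⟨hy, hy1⟩
        rw [indicator_of_mem hy1, indicator_of_mem hm]
        simp
      · have hm : y ∉ Ioo (0 : ℝ) 1 := fun h => hy1 h.2
        rw [indicator_of_notMem hy1, indicator_of_notMem hm]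
        simp
    · have hm : y ∉ Ioo (0 : ℝ) 1 := fun h => hy h.1
      rw [indicator_of_notMem hy, indicator_of_notMem hm]
  rw [h3]
  simp only [nsmul_eq_mul, smul_eq_mul]
  push_cast
  ring

lemma int1 (lam : ℝ) (hl : 0 < lam) :
    ∫ y in (0 : ℝ)..1, y * Real.exp (-(lam * (1 - y ^ 2))) = (1 - Real.exp (-lam)) / (2 * lam) := by
  have hd : ∀ y ∈ uIcc (0 : ℝ) 1, HasDerivAt
      (fun y : ℝ => Real.exp (-(lam * (1 - y ^ 2))) / (2 * lam))
      (y * Real.exp (-(lam * (1 - y ^ 2)))) y := by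
    intro y _
    have h1 : HasDerivAt (fun y : ℝ => -(lam * (1 - y ^ 2))) (2 * lam * y) y := by
      have h := (((hasDerivAt_pow 2 y).const_sub 1).const_mul lam).neg
      have e : 2 * lam * y = -(lam * -((2 : ℕ) * y ^ (2 - 1))) := by
        push_cast
        ring
      rw [e]
      exact h
    have h2 := (h1.exp).div_const (2 * lam)
    have e2 : y * Real.exp (-(lam * (1 - y ^ 2))) =
        Real.exp (-(lam * (1 - y ^ 2))) * (2 * lam * y) / (2 * lam) := by
      field_simp
    rw [e2]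
    exact h2
  rw [intervalIntegral.integral_eq_sub_of_hasDerivAt hd
    ((by fun_prop : Continuous fun y : ℝ => y * Real.exp (-(lam * (1 - y ^ 2)))).intervalIntegrable
      _ _)]
  simp
  ring

lemma half (F : ℂ → ℝ) (hF : IntegrableOn F (ball 0 1)) (hs : ∀ z, F (-z) = F z) :
    ∫ z in {z : ℂ | ‖z‖ < 1 ∧ z.re ≤ 0}, F z = (∫ z in ball (0 : ℂ) 1, F z) / 2 := by
  have hA : MeasurableSet {z : ℂ | ‖z‖ < 1 ∧ z.re ≤ 0} :=
    (measurableSet_lt measurable_norm measurable_const).inter
      (measurableSet_le Complex.measurable_re measurable_const)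
  have hB : MeasurableSet {z : ℂ | ‖z‖ < 1 ∧ 0 ≤ z.re} :=
    (measurableSet_lt measurable_norm measurable_const).inter
      (measurableSet_le measurable_const Complex.measurable_re)
  have e1 : ∫ z in {z : ℂ | ‖z‖ < 1 ∧ z.re ≤ 0}, F z = ∫ z in {z : ℂ | ‖z‖ < 1 ∧ 0 ≤ z.re}, F z := by
    rw [← integral_indicator hA, ← integral_indicator hB, ← integral_neg_eq_self]
    congr 1
    ext z
    by_cases hz : z ∈ {z : ℂ | ‖z‖ < 1 ∧ 0 ≤ z.re}
    · rw [indicator_of_mem hz, indicator_of_mem (by simpa using hz), hs]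
    · rw [indicator_of_notMem hz, indicator_of_notMem (by simpa using hz)]
  have hnull : (volume : Measure ℂ) {z : ℂ | z.re = 0} = 0 := by
    have h1 : {z : ℂ | z.re = 0} = (LinearMap.ker Complex.reLm : Submodule ℝ ℂ) := by
      ext z
      simp
    rw [h1]
    apply Measure.addHaar_submodule
    intro h
    have : (1 : ℂ) ∈ (LinearMap.ker Complex.reLm : Submodule ℝ ℂ) := by rw [h]; trivial
    simp at this
  have e2 : ∫ z in ball (0 : ℂ) 1, F z =
      (∫ z in {z : ℂ | ‖z‖ < 1 ∧ z.re ≤ 0}, F z) + ∫ z in {z : ℂ | ‖z‖ < 1 ∧ 0 ≤ z.re}, F z := by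
    have hu : ball (0 : ℂ) 1 = {z : ℂ | ‖z‖ < 1 ∧ z.re ≤ 0} ∪ {z : ℂ | ‖z‖ < 1 ∧ 0 ≤ z.re} := by
      ext z
      simp only [mem_ball_zero_iff, mem_union, mem_ofPred_eq]
      constructor
      · intro h
        rcases le_total z.re 0 with h' | h'
        · exact Or.inl ⟨h, h'⟩
        · exact Or.inr ⟨h, h'⟩
      · rintro (h | h) <;> exact h.1
    have hsub1 : {z : ℂ | ‖z‖ < 1 ∧ z.re ≤ 0} ⊆ ball (0 : ℂ) 1 := fun z hz => by
      simpa using hz.1
    have hsub2 : {z : ℂ | ‖z‖ < 1 ∧ 0 ≤ z.re} ⊆ ball (0 : ℂ) 1 := fun z hz => by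
      simpa using hz.1
    conv_lhs => rw [hu]
    apply setIntegral_union₀ _ hB.nullMeasurableSet (hF.mono_set hsub1) (hF.mono_set hsub2)
    refine measure_mono_null ?_ hnull
    rintro z ⟨h1, h2⟩
    exact le_antisymm h1.2 h2.2
  rw [e2, ← e1]
  ring

end RADAux

theorem rad : S_RAD := by
  have h1 : ∀ lam : ℝ, 0 < lam → ∫ z in ball (0 : ℂ) 1, Real.exp (-(lam * (1 - ‖z‖ ^ 2))) =
    Real.pi * (1 - Real.exp (-lam)) / lam := by
    intro lam hl
    rw [RADAux.radial fun y => Real.exp (-(lam * (1 - y ^ 2))), RADAux.int1 lam hl]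
    field_simp
  refine ⟨h1, ?_, ?_⟩
  · intro lam hl
    rw [RADAux.half _ _ (fun z => by simp), h1 lam hl]
    · ring
    · refine IntegrableOn.mono_set ?_ ball_subset_closedBall
      exact (by fun_prop : Continuous fun z : ℂ => Real.exp (-(lam * (1 - ‖z‖ ^ 2)))).continuousOn.integrableOn_compact
        (isCompact_closedBall 0 1)
  · intro p hp
    rw [RADAux.radial fun y => y ^ p]
    have : ∫ y in (0 : ℝ)..1, y * y ^ p = ∫ y in (0 : ℝ)..1, y ^ (p + 1) := by
      apply intervalIntegral.integral_congr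
      intro y hy
      rw [uIcc_of_le zero_le_one] at hy
      have h0 : y * y ^ p = y ^ (p + 1) := by
        rcases eq_or_lt_of_le hy.1 with h | h
        · rw [← h, Real.zero_rpow (by positivity), Real.zero_rpow (by positivity), zero_mul]
        · rw [Real.rpow_add h, Real.rpow_one, mul_comm]
      exact h0
    rw [this, integral_rpow (Or.inl (by linarith))]
    rw [Real.one_rpow, Real.zero_rpow (by positivity)]
    field_simp
    ring

end Pool.Agent.KRB
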