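import Pool.Agent.KRB.Stmts

/-!
# The quotient `f / g` on the annulus (module `REM`)
-/

set_option autoImplicit false

namespace Pool.Agent.KRB

open Complex MeasureTheory Set Filter Topology Metric

namespace REMAux

/-- The zeros of `g` are isolated. -/
theorem ev_ne (g : ℂ → ℂ) (hg : DifferentiableOn ℂ g (ball 0 1))
    (hne : ∃ z : ℂ, ‖z‖ < 1 ∧ g z ≠ 0) (z : ℂ) (hz : ‖z‖ < 1) : ∀ᶠ w in 𝓝[≠] z, g w ≠ 0 := by
  have hgA : AnalyticOnNhd ℂ g (ball 0 1) := hg.analyticOnNhd isOpen_ball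
  have hz' : z ∈ ball (0 : ℂ) 1 := mem_ball_zero_iff.2 hz
  rcases (hgA z hz').eventually_eq_zero_or_eventually_ne_zero with h | h
  · exfalso
    obtain ⟨z1, hz1, hz1'⟩ := hne
    apply hz1'
    exact hgA.eqOn_zero_of_preconnected_of_eventuallyEq_zero (convex_ball 0 1).isPreconnected
      hz' h (mem_ball_zero_iff.2 hz1)
  · exact h

theorem isOpen_ann (c : ℝ) : IsOpen {z : ℂ | c < ‖z‖ ∧ ‖z‖ < 1} :=
  (isOpen_lt continuous_const continuous_norm).inter (isOpen_lt continuous_norm continuous_const)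

end REMAux

open REMAux in
theorem rem : S_REM := by
  intro f g c hc hf hg hne hle
  set F : ℂ → ℂ := fun w => f w / g w with hF
  set ω : ℂ → ℂ := fun z => limUnder (𝓝[≠] z) F with hω
  -- where `g` does not vanish
  have hfd : ∀ z : ℂ, ‖z‖ < 1 → DifferentiableAt ℂ f z := fun z hz =>
    (hf z (mem_ball_zero_iff.2 hz)).differentiableAt (isOpen_ball.mem_nhds (mem_ball_zero_iff.2 hz))
  have hgd : ∀ z : ℂ, ‖z‖ < 1 → DifferentiableAt ℂ g z := fun z hz =>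
    (hg z (mem_ball_zero_iff.2 hz)).differentiableAt (isOpen_ball.mem_nhds (mem_ball_zero_iff.2 hz))
  have hFd : ∀ z : ℂ, ‖z‖ < 1 → g z ≠ 0 → DifferentiableAt ℂ F z := fun z hz h =>
    (hfd z hz).div (hgd z hz) h
  have hωF : ∀ z : ℂ, ‖z‖ < 1 → g z ≠ 0 → ω z = F z := by
    intro z hz h
    have h1 : Tendsto F (𝓝[≠] z) (𝓝 (F z)) :=
      (hFd z hz h).continuousAt.tendsto.mono_left nhdsWithin_le_nhds
    exact h1.limUnder_eq
  have hωd : ∀ z : ℂ, c < ‖z‖ → ‖z‖ < 1 → DifferentiableAt ℂ ω z := by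
    intro z hz1 hz2
    have h1 : ∀ᶠ w in 𝓝 z, w ≠ z → g w ≠ 0 := by
      have := ev_ne g hg hne z hz2
      rwa [eventually_nhdsWithin_iff] at this
    have h2 : ∀ᶠ w in 𝓝 z, c < ‖w‖ ∧ ‖w‖ < 1 := (isOpen_ann c).mem_nhds ⟨hz1, hz2⟩
    set s : Set ℂ := {w | (w ≠ z → g w ≠ 0) ∧ c < ‖w‖ ∧ ‖w‖ < 1} with hs
    have hsn : s ∈ 𝓝 z := h1.and h2
    have hd : DifferentiableOn ℂ F (s \ {z}) := by
      intro w hw
      exact (hFd w hw.1.2.2 (hw.1.1 hw.2)).differentiableWithinAt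
    have hb : BddAbove (norm ∘ F '' (s \ {z})) := by
      refine ⟨1, ?_⟩
      rintro _ ⟨w, hw, rfl⟩
      have hgw : g w ≠ 0 := hw.1.1 hw.2
      show ‖f w / g w‖ ≤ 1
      rw [norm_div]
      exact div_le_one_of_le₀ (hle w hw.1.2.1 hw.1.2.2) (norm_nonneg _)
    have h3 := Complex.differentiableOn_update_limUnder_of_bddAbove hsn hd hb
    have h4 : DifferentiableAt ℂ (Function.update F z (limUnder (𝓝[≠] z) F)) z :=
      (h3 z (mem_of_mem_nhds hsn)).differentiableAt hsn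
    refine h4.congr_of_eventuallyEq ?_
    filter_upwards [hsn] with w hw
    by_cases hwz : w = z
    · subst hwz
      simp [hω]
    · rw [Function.update_of_ne hwz]
      exact hωF w hw.2.2 (hw.1 hwz)
  refine ⟨ω, fun z hz => (hωd z hz.1 hz.2).differentiableWithinAt, fun z hz1 hz2 => ?_⟩
  have h1 : ∀ᶠ w in 𝓝[≠] z, g w ≠ 0 := ev_ne g hg hne z hz2
  have h2 : ∀ᶠ w in 𝓝[≠] z, c < ‖w‖ ∧ ‖w‖ < 1 :=
    nhdsWithin_le_nhds ((isOpen_ann c).mem_nhds ⟨hz1, hz2⟩)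
  have tω : Tendsto ω (𝓝[≠] z) (𝓝 (ω z)) :=
    (hωd z hz1 hz2).continuousAt.tendsto.mono_left nhdsWithin_le_nhds
  have tg : Tendsto g (𝓝[≠] z) (𝓝 (g z)) :=
    (hgd z hz2).continuousAt.tendsto.mono_left nhdsWithin_le_nhds
  have tf : Tendsto f (𝓝[≠] z) (𝓝 (f z)) :=
    (hfd z hz2).continuousAt.tendsto.mono_left nhdsWithin_le_nhds
  constructor
  · refine tendsto_nhds_unique_of_eventuallyEq tf (tω.mul tg) ?_
    filter_upwards [h1, h2] with w hw1 hw2
    rw [hωF w hw2.2 hw1]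
    simp only [hF]
    field_simp
  · refine le_of_tendsto tω.norm ?_
    filter_upwards [h1, h2] with w hw1 hw2
    rw [hωF w hw2.2 hw1]
    simp only [hF]
    rw [norm_div]
    exact div_le_one_of_le₀ (hle w hw2.1 hw2.2) (norm_nonneg _)

end Pool.Agent.KRB
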