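import Pool.Agent.KRB.Defs

/-!
# The Korenblum constant: statements of the modules

Paper proofs are in the doc-strings. Theorem: `1/(40√p) ≤ 1 - κ_p` for `p ≥ 1` and
`1 - κ_p ≤ C √(log p / p)` for `p ≥ 2`.
-/

set_option autoImplicit false

namespace Pool.Agent.KRB

open Complex MeasureTheory Set Filter Topology Metric

/-- **Maximum principle** for `|g|^q |h|`. Let `Ψ = ‖g‖^q ‖h‖`, continuous on the closed ball. Suppose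
`Ψ z > M` somewhere (the case `M < 0` is void, since then the sphere condition fails). Let `m = max Ψ > max(M, 0)`, `K` the
compact set of the points of the closed ball with `Ψ = m` (inside the open ball), and `z₀ ∈ K` a
point with maximal real part. `g z₀ ≠ 0` if `q > 0` (if `q = 0` the factor is `1`), so near `z₀` one has `Ψ = ‖Φ‖`,
`Φ = exp (q log (g / g z₀)) h ‖g z₀‖^q`, which is analytic near `z₀` (`g / g z₀` is close to `1`), and `‖Φ‖` has a local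
maximum at `z₀`; so `‖Φ‖` is constant near `z₀` (`Complex.norm_eventually_eq_of_isLocalMax`), hence `z₀ + ε ∈ K`: a
contradiction. -/
def S_MAXP : Prop := ∀ (g h : ℂ → ℂ) (r q M : ℝ), 0 < r → 0 ≤ q →
  ContinuousOn g (closedBall 0 r) → ContinuousOn h (closedBall 0 r) →
  DifferentiableOn ℂ g (ball 0 r) → DifferentiableOn ℂ h (ball 0 r) →
  (∀ z ∈ sphere (0 : ℂ) r, ‖g z‖ ^ q * ‖h z‖ ≤ M) →
  ∀ z ∈ closedBall (0 : ℂ) r, ‖g z‖ ^ q * ‖h z‖ ≤ M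

/-- **Sub-mean value inequality** off the centre, with hypothesis `S_MAXP`. Let `Ψ = ‖g‖^q ‖h‖`, `ε > 0`. The
function `log (Ψ + ε)`, composed with the retraction `w ↦ (r / max r ‖w‖) w` of `ℂ` onto the closed ball, is
continuous on `ℂ`, so `Pool.Agent.Lib_helper51.exists_entire_approx` (file `Pool/Agent/Lib_helper51/SubMean.lean`; import
it) gives an entire `H` with `|Re H - log (Ψ + ε)| ≤ ε` on the sphere. `S_MAXP` for `g` and `h e^{-H}` gives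
`Ψ(z) ≤ e^ε ‖e^{H(z)}‖`. By the Poisson formula for `e^H` (`DiffContOnCl.circleAverage_poissonKernel_smul`; or Cauchy's
formula, which gives the factor `r / (r - ‖z‖)`) `‖e^{H(z)}‖ ≤ 2r/(r - ‖z‖) · avg ‖e^H‖ ≤ 2r/(r - ‖z‖) e^ε (avg Ψ + ε)`.
Let `ε → 0`. -/
def S_PT : Prop := ∀ (g h : ℂ → ℂ) (r r' q : ℝ), 0 < r → r < r' → 0 ≤ q →
  DifferentiableOn ℂ g (ball 0 r') → DifferentiableOn ℂ h (ball 0 r') →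
  ∀ z : ℂ, ‖z‖ < r →
    (r - ‖z‖) * (‖g z‖ ^ q * ‖h z‖) ≤
      2 * r * Real.circleAverage (fun w => ‖g w‖ ^ q * ‖h w‖) 0 r

/-- **The quotient.** `g` is analytic on the unit disc and not identically `0`, so its zeros are isolated
(`AnalyticOnNhd.eqOn_zero_of_preconnected_of_eventuallyEq_zero`, `AnalyticAt.eventually_eq_zero_or_eventually_ne_zero`). Let
`ω z = limUnder (𝓝[≠] z) (fun w => f w / g w)`. Near each point `z` of the annulus `f / g` is bounded by `1` on a punctured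
neighbourhood, so by `Complex.differentiableOn_update_limUnder_of_bddAbove` the function `f / g`, updated at `z` by this limit,
is analytic near `z`; at the other points near `z` it agrees with `ω` since there `f / g` is continuous. -/
def S_REM : Prop := ∀ (f g : ℂ → ℂ) (c : ℝ), 0 ≤ c →
  DifferentiableOn ℂ f (ball 0 1) → DifferentiableOn ℂ g (ball 0 1) →
  (∃ z : ℂ, ‖z‖ < 1 ∧ g z ≠ 0) → (∀ z : ℂ, c < ‖z‖ → ‖z‖ < 1 → ‖f z‖ ≤ ‖g z‖) →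
  ∃ ω : ℂ → ℂ, DifferentiableOn ℂ ω {z | c < ‖z‖ ∧ ‖z‖ < 1} ∧
    ∀ z : ℂ, c < ‖z‖ → ‖z‖ < 1 → f z = ω z * g z ∧ ‖ω z‖ ≤ 1

/-- **The phase.** (1) If `v` is analytic in a disc of radius `r₀` around `ζ` with `Re v > 0` there and `v ζ = x > 0` is
real, then `|v' ζ| ≤ 2 x / r₀`: Schwarz lemma for `(v - x) / (v + x)` (`Complex.norm_deriv_le_div_of_mapsTo_ball`). (2) If `ω` is
analytic in the disc with `|ω| ≤ 1`, then `|ω' ζ| ≤ 2 (1 - |ω ζ|) / r₀`: apply (1) to `v = 1 + ε - ū ω`, where `|u| = 1`,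
`ū ω ζ = |ω ζ|`, and let `ε → 0`. (3) Let `m t = 1 - |ω (ρ e^{it})|`, `A = 2 ρ / r₀`; `W t = ω (ρ e^{it})` has `|W'| ≤ A m`, so
`m` satisfies `m s ≤ m t e^{A |s - t|}` (Gronwall: `|m s - m t| ≤ |∫ A m|`; or: `m t e^{A t}` is nondecreasing and
`m t e^{-A t}` is nonincreasing, by comparison `|m s - m t| ≤ ‖W s - W t‖`). (4) Let `u` be the unimodular number with
`|W t₁ - u| = m t₁`. Then `|W t - u| ≤ m t₁ + |∫_{t₁}^t A m| ≤ m t e^{A|t - t₁|} + m t (e^{A|t - t₁|} - 1) ≤ 2 m t e^{A|t-t₁|}`. -/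
def S_PH : Prop := ∀ (ω : ℂ → ℂ) (c ρ r₀ : ℝ), 0 < r₀ → 0 < ρ → c ≤ ρ - r₀ → ρ + r₀ ≤ 1 →
  DifferentiableOn ℂ ω {z | c < ‖z‖ ∧ ‖z‖ < 1} → (∀ z : ℂ, c < ‖z‖ → ‖z‖ < 1 → ‖ω z‖ ≤ 1) →
  ∀ t₁ : ℝ, ∃ u : ℂ, ‖u‖ = 1 ∧ ∀ t : ℝ, ‖ω (ρ * cexp (t * I)) - u‖ ≤
    2 * (1 - ‖ω (ρ * cexp (t * I))‖) * Real.exp (2 * ρ / r₀ * |t - t₁|)

/-- **The multiplier.** Let `w = z e^{-i t₁} / ρ`, `ζ = 1 - w`, `q = ∑_{k ≤ N} 2^{-k} ζ / (ζ + 2^{-k})`, `Q = exp (-4π A q)`. The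
denominators do not vanish for `‖z‖ < ρ (1 + 2^{-N})`. For `Re ζ ≥ 0`: `Re (ζ / (ζ + ε)) ≥ |ζ|² / (|ζ| + ε)² ≥ 0`, and it is
`≥ 1/4` if `|ζ| ≥ ε`. If `2^{-N} ≤ |ζ| ≤ 2`, let `k ≤ N` be the least index with `2^{-k} ≤ |ζ|`; then `|ζ| ≤ 2 · 2^{-k}` and
`Re q ≥ 2^{-k} / 4 ≥ |ζ| / 8`. So `Re q ≥ (|ζ| - 2^{-N}) / 8` always. On `z = ρ e^{it}`:
`|ζ| = 2 |sin ((t - t₁)/2)| ≥ (2/π) |t - t₁|`. Hence `‖Q‖ ≤ exp (-A |t - t₁| + (π/2) A 2^{-N})`. For `z = s ρ e^{i t₁}`, `ζ = 1 - s` is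
real and `q ≤ ∑_{k ≤ N} (1 - s) = (N + 1) (1 - s)`, as `2^{-k} / (ζ + 2^{-k}) ≤ 1`. -/
def S_MUL : Prop := ∀ (A ρ t₁ : ℝ) (N : ℕ), 0 ≤ A → 0 < ρ → ∃ (Q : ℂ → ℂ) (ρ' : ℝ), ρ < ρ' ∧
  DifferentiableOn ℂ Q (ball 0 ρ') ∧
  (∀ t : ℝ, |t - t₁| ≤ Real.pi →
    ‖Q (ρ * cexp (t * I))‖ ≤ Real.exp (-(A * |t - t₁|) + 2 * A / 2 ^ N)) ∧
  ∀ s : ℝ, 0 ≤ s → s ≤ 1 →
    Real.exp (-(4 * Real.pi * A * (N + 1) * (1 - s))) ≤ ‖Q ((s * ρ : ℝ) * cexp (t₁ * I))‖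

/-- **The gain from a zero.** `E = exp h`, `h z = κ (ρ² + ā z) / (ρ² - ā z)`, `κ = (ρ² - c₁²)/4`; `Re h z =
κ (ρ⁴ - |a|²|z|²) / |ρ² - ā z|²`. Identity: `|ρ² - ā z|² - ρ² |z - a|² = (ρ² - |z|²)(ρ² - |a|²)`; so with `D = |ρ² - ā z|²`,
`ρ² |z - a|² / D = 1 - (ρ² - |z|²)(ρ² - |a|²)/D ≤ exp (-(ρ² - |z|²)(ρ² - |a|²)/D)`, i.e.
`ρ |z - a| ≤ √D exp (-(ρ² - |z|²)(ρ² - |a|²)/(2D))`. For `|z| = c₁`: `ρ⁴ - |a|² c₁² = ρ²(ρ² - |a|²) + |a|²(ρ² - c₁²) ≤ 2 (ρ² - |a|²)`,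
so `Re h ≤ (ρ² - c₁²)(ρ² - |a|²)/(2D)`. For `|z| ≤ c₁`: `D ≤ (ρ² + |a||z|)²`, so
`Re h ≥ κ (ρ² - |a||z|)/(ρ² + |a||z|) ≥ κ (ρ² - ρ|z|)/(2ρ²) ≥ κ (ρ - |z|)/2`, and `κ ≥ (ρ - c₁)/8`. -/
def S_GAIN : Prop := ∀ (a : ℂ) (c₁ ρ : ℝ), ‖a‖ ≤ c₁ → c₁ < ρ → 1 / 2 ≤ ρ → ρ ≤ 1 →
  ∃ E : ℂ → ℂ, DifferentiableOn ℂ E (ball 0 ρ) ∧
    (∀ z : ℂ, ‖z‖ = c₁ → ‖E z‖ * (ρ * ‖z - a‖) ≤ ‖(ρ : ℂ) ^ 2 - (starRingEnd ℂ) a * z‖) ∧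
    ∀ z : ℂ, ‖z‖ ≤ c₁ → Real.exp ((ρ - c₁) * (ρ - ‖z‖) / 16) ≤ ‖E z‖

/-- **The pointwise bound** (from `S_MAXP`, `S_PT`, `S_REM`, `S_PH`, `S_MUL`, `S_GAIN`). `r₀ = η/4`, `c₁ = 1 - (2/3) η`,
`A = 8ρ/η`, `t₁` an argument of `z₀`, `u` from `S_PH`. `‖f E‖^q ‖(f - u g) Q‖` (`q = p - 1`) at `z₀` is at most its maximum over
`|z| = c₁`, where `‖f E‖ ≤ ‖g₂‖`, `g₂ = dslope g a · (ρ² - ā z)/ρ`; `S_PT` for `g₂`, `(f - u g) Q` with `r = ρ`. On `|z| = ρ`: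
`‖g₂‖ = ‖g‖` and `‖f - u g‖ ‖Q‖ ≤ 2 (‖g‖ - ‖f‖) e^16`. At `z₀`: `‖E‖^q ‖Q‖ ≥ exp (q η δ/96 - 32π (N+1) δ/η) ≥ exp (q η²/384)`,
`δ = ρ - ‖z₀‖ ≥ η/2`. -/
def S_CORE : Prop := ∀ (f g : ℂ → ℂ) (p η ρ : ℝ) (N : ℕ) (a : ℂ), 2 ≤ p → 0 < η → η ≤ 1 / 2 →
  1 - η / 2 ≤ ρ → ρ ≤ 1 - η / 3 → 1 ≤ 2 ^ N * η → 40000 * ((N : ℝ) + 1) ≤ (p - 1) * η ^ 2 →
  DifferentiableOn ℂ f (ball 0 1) → DifferentiableOn ℂ g (ball 0 1) →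
  (∀ z : ℂ, 1 - η < ‖z‖ → ‖z‖ < 1 → ‖f z‖ ≤ ‖g z‖) → ‖a‖ ≤ 1 - η → g a = 0 →
  (∃ z : ℂ, ‖z‖ < 1 ∧ g z ≠ 0) → ∀ z₀ : ℂ, ‖z₀‖ ≤ 1 - η →
    η * Real.exp ((p - 1) * η ^ 2 / 384) * (‖f z₀‖ ^ (p - 1) * (‖f z₀‖ - ‖g z₀‖)) ≤
      24 * Real.exp 16 *
        Real.circleAverage (fun w => ‖g w‖ ^ (p - 1) * (‖g w‖ - ‖f w‖)) 0 ρ

/-- **Annuli.** Polar coordinates (`Complex.integral_comp_polarCoord_symm`) and Fubini: the integral over the annulus is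
`∫_a^b 2πρ avg_ρ dρ ≥ 2π M ∫_a^b ρ dρ = π M (b² - a²) ≥ π M (b - a)`. -/
def S_POL : Prop := ∀ (Φ : ℂ → ℝ) (a b M : ℝ), 1 / 2 ≤ a → a < b → b < 1 → 0 ≤ M →
  ContinuousOn Φ (ball 0 1) → (∀ ρ ∈ Ioo a b, M ≤ Real.circleAverage Φ 0 ρ) →
  M * (Real.pi * (b - a)) ≤ ∫ z in {z : ℂ | a < ‖z‖ ∧ ‖z‖ < b}, Φ z

/-- **The zero-free case.** `g` has no zero in the closed ball of radius `c`, hence (compactness) none in the closed ball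
of radius `c' ∈ (c, 1)`. `f / g` is analytic there with `|f/g| ≤ 1` on the sphere, so by the maximum principle
(`Complex.norm_le_of_forall_mem_frontier_norm_le`) inside. -/
def S_ZF : Prop := ∀ (f g : ℂ → ℂ) (c : ℝ), 0 < c → c < 1 →
  DifferentiableOn ℂ f (ball 0 1) → DifferentiableOn ℂ g (ball 0 1) →
  (∀ z : ℂ, c < ‖z‖ → ‖z‖ < 1 → ‖f z‖ ≤ ‖g z‖) → (∀ z : ℂ, ‖z‖ ≤ c → g z ≠ 0) →
  ∀ z : ℂ, ‖z‖ < 1 → ‖f z‖ ≤ ‖g z‖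

/-- **The property at `c = 1 - η`** (from `S_CORE`, `S_POL`, `S_ZF`). Integrate `|f|^p - |g|^p ≤ p |f|^{p-1} (|f| - |g|)` (where
`|f| ≥ |g|`) over the ball of radius `c` and compare with `∫ |g|^{p-1} (|g| - |f|)` over the annulus
`1 - η/2 < |z| < 1 - η/3`. -/
def S_LOW0 : Prop := ∀ (p η : ℝ) (N : ℕ), 2 ≤ p → 0 < η → η ≤ 1 / 2 → 1 ≤ 2 ^ N * η →
  40000 * ((N : ℝ) + 1) ≤ (p - 1) * η ^ 2 →
  144 * Real.exp 16 * p ≤ η ^ 2 * Real.exp ((p - 1) * η ^ 2 / 384) → KP p (1 - η)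

/-- **Lower bound for `κ_p`** (from `S_LOW0`). -/
def S_LOW : Prop := ∃ C : ℝ, 0 < C ∧ ∀ p c : ℝ, 2 ≤ p → 0 < c → c < 1 →
  c ≤ 1 - C * √(Real.log p / p) → KP p c

/-- **Radial integrals** over the disc and the half disc (polar coordinates). -/
def S_RAD : Prop :=
  (∀ lam : ℝ, 0 < lam → ∫ z in ball (0 : ℂ) 1, Real.exp (-(lam * (1 - ‖z‖ ^ 2))) =
    Real.pi * (1 - Real.exp (-lam)) / lam) ∧
  (∀ lam : ℝ, 0 < lam → ∫ z in {z : ℂ | ‖z‖ < 1 ∧ z.re ≤ 0}, Real.exp (-(lam * (1 - ‖z‖ ^ 2))) =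
    Real.pi / 2 * (1 - Real.exp (-lam)) / lam) ∧
  ∀ p : ℝ, 0 < p → ∫ z in ball (0 : ℂ) 1, ‖z‖ ^ p = 2 * Real.pi / (p + 2)

/-- **Upper bound for `κ_p`** (from `S_RAD`). -/
def S_UP : Prop := ∀ p c : ℝ, 1 ≤ p → 0 < c → c < 1 → KP p c → c ≤ 1 - 1 / (40 * √p)

end Pool.Agent.KRB
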