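import Pool.Agent.KRB.Stmts

/-!
# The Korenblum constant: the upper bound
-/

set_option autoImplicit false

namespace Pool.Agent.KRB

open Complex MeasureTheory Set Filter Topology Metric

namespace UPAux

/-- From the norms to the integrals. -/
theorem int_le {p c : ℝ} (hp : 0 < p) (h : KP p c) {f g : ℂ → ℂ} (hf : Berg p f) (hg : Berg p g)
    (hfg : ∀ z : ℂ, c < ‖z‖ → ‖z‖ < 1 → ‖f z‖ ≤ ‖g z‖) :
    ∫ z in ball (0 : ℂ) 1, ‖f z‖ ^ p ≤ ∫ z in ball (0 : ℂ) 1, ‖g z‖ ^ p := by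
  have h1 := h f g hf hg hfg
  rw [nrm, nrm, Real.rpow_le_rpow_iff _ _ (by positivity)] at h1
  · exact h1
  · apply integral_nonneg
    intro z
    positivity
  · apply integral_nonneg
    intro z
    positivity

/-- Bounded functions are integrable. -/
theorem integ {φ : ℂ → ℝ} (hφ : ContinuousOn φ (ball 0 1))
    (hb : ∀ z : ℂ, ‖z‖ < 1 → 0 ≤ φ z ∧ φ z ≤ 1) : IntegrableOn φ (ball 0 1) := by
  have h : IntegrableOn (fun _ : ℂ => (1 : ℝ)) (ball 0 1) :=
    integrableOn_const measure_ball_lt_top.ne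
  refine Integrable.mono' h (hφ.aestronglyMeasurable measurableSet_ball) ?_
  filter_upwards [ae_restrict_mem measurableSet_ball] with z hz
  rw [mem_ball_zero_iff] at hz
  obtain ⟨h1, h2⟩ := hb z hz
  rw [Real.norm_of_nonneg h1]
  exact h2

/-- Bounded analytic functions are in the Bergman space. -/
theorem berg {p : ℝ} (hp : 0 < p) {f : ℂ → ℂ} (hf : DifferentiableOn ℂ f (ball 0 1))
    (hb : ∀ z : ℂ, ‖z‖ < 1 → ‖f z‖ ≤ 1) : Berg p f := by
  refine ⟨hf, ?_⟩
  apply integ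
  · exact (hf.continuousOn.norm).rpow_const (fun _ _ => Or.inr hp.le)
  · intro z hz
    exact ⟨by positivity, Real.rpow_le_one (norm_nonneg _) (hb z hz) hp.le⟩

/-- Small exponents. -/
theorem small (hR : S_RAD) {p c : ℝ} (hp : 1 ≤ p) (hp2 : p ≤ 1024) (hc0 : 0 < c) (hc1 : c < 1)
    (h : KP p c) : c ≤ 1 - 1 / (40 * √p) := by
  have hp0 : 0 < p := by linarith
  have hf : Berg p (fun _ => (c : ℂ)) := berg hp0 (differentiableOn_const _) (fun z _ => by
    rw [norm_real, Real.norm_of_nonneg hc0.le]; exact hc1.le)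
  have hg : Berg p (fun z : ℂ => z) := berg hp0 differentiableOn_id (fun z hz => hz.le)
  have h1 := int_le hp0 h hf hg (fun z h1 _ => by
    rw [norm_real, Real.norm_of_nonneg hc0.le]; exact h1.le)
  rw [hR.2.2 p hp0] at h1
  have h2 : ∫ _z in ball (0 : ℂ) 1, ‖(c : ℂ)‖ ^ p = Real.pi * c ^ p := by
    rw [setIntegral_const, smul_eq_mul, Measure.real, Complex.volume_ball, ENNReal.toReal_mul,
      norm_real, Real.norm_of_nonneg hc0.le]
    simp
  rw [h2] at h1
  have h3 : c ^ p * (p + 2) ≤ 2 := by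
    rw [le_div_iff₀ (by linarith)] at h1
    have h4 : Real.pi * (c ^ p * (p + 2)) ≤ Real.pi * 2 := by linarith
    exact le_of_mul_le_mul_left h4 Real.pi_pos
  have h5 := one_add_mul_self_le_rpow_one_add (s := c - 1) (p := p) (by linarith) hp
  rw [add_sub_cancel] at h5
  by_contra hcon
  rw [not_le] at hcon
  have hs1 : 1 ≤ √p := by rw [Real.one_le_sqrt]; exact hp
  have hs2 : √p ≤ 32 := by
    rw [Real.sqrt_le_left (by norm_num)]
    linarith
  have hsp : √p * √p = p := Real.mul_self_sqrt hp0.le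
  have h6 : p * (1 - c) < √p / 40 := by
    have h7 : 1 - c < 1 / (40 * √p) := by linarith
    have h8 := mul_lt_mul_of_pos_left h7 hp0
    have h9 : p * (1 / (40 * √p)) = √p / 40 := by
      rw [mul_one_div, div_eq_div_iff (by positivity) (by norm_num)]
      nlinarith
    linarith
  have h7 : 1 - √p / 40 < c ^ p := by linarith
  have h8 : (1 - √p / 40) * (p + 2) < 2 := by
    have := mul_lt_mul_of_pos_right h7 (by linarith : 0 < p + 2)
    linarith
  nlinarith [mul_nonneg (by linarith : 0 ≤ √p - 1) (by linarith : 0 ≤ 32 - √p)]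

/-- `|1 - a z|² - |z - a|² = (1 - |z|²)(1 - a²)`. -/
theorem ident (a : ℝ) (z : ℂ) :
    ‖1 - a * z‖ ^ 2 - ‖z - a‖ ^ 2 = (1 - ‖z‖ ^ 2) * (1 - a ^ 2) := by
  rw [← normSq_eq_norm_sq, ← normSq_eq_norm_sq, ← normSq_eq_norm_sq, normSq_apply, normSq_apply,
    normSq_apply]
  simp
  ring

theorem re_eq (a : ℝ) (z : ℂ) :
    ((1 + a * z) / (1 - a * z)).re = (1 - a ^ 2 * ‖z‖ ^ 2) / ‖1 - a * z‖ ^ 2 := by
  rw [div_re, ← add_div, ← normSq_eq_norm_sq, ← normSq_eq_norm_sq]
  congr 1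
  rw [normSq_apply]
  simp
  ring

/-- Large exponents. -/
theorem large (hR : S_RAD) {p c : ℝ} (hp : 1024 ≤ p) (h : KP p c) : c ≤ 1 - 1 / (40 * √p) := by
  have hp0 : 0 < p := by linarith
  have hs : 32 ≤ √p := Real.le_sqrt_of_sq_le (by linarith)
  have hs0 : 0 < √p := by linarith
  have hsp : √p ^ 2 = p := Real.sq_sqrt hp0.le
  by_contra hcon
  rw [not_le] at hcon
  obtain ⟨η, hη⟩ : ∃ η : ℝ, η = 1 / (32 * √p) := ⟨_, rfl⟩
  have hη0 : 0 < η := by rw [hη]; positivity
  have hηs : η * √p = 1 / 32 := by rw [hη]; field_simp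
  have hcη : 1 - η < c := by
    have : 1 / (40 * √p) ≤ η := by
      rw [hη]
      apply one_div_le_one_div_of_le (by positivity)
      linarith
    linarith
  have hη1 : η ≤ 1 / 1024 := by nlinarith
  have hpη2 : p * η ^ 2 = 1 / 1024 := by
    rw [← hsp, ← mul_pow, mul_comm, hηs]
    norm_num
  have hpη : p * η = √p / 32 := by
    calc p * η = √p ^ 2 * η := by rw [hsp]
      _ = √p * (η * √p) := by ring
      _ = √p / 32 := by rw [hηs]; ring
  obtain ⟨a, ha⟩ : ∃ a : ℝ, a = 1 - 64 * η := ⟨_, rfl⟩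
  have ha0 : 0 < a := by rw [ha]; linarith
  have ha1 : a < 1 := by rw [ha]; linarith
  have hn1 : 1 - a ^ 2 ≤ 128 * η := by
    rw [ha]
    nlinarith
  have hn2 : 64 * η ≤ 1 - a ^ 2 := by nlinarith
  have hre1 : ∀ z : ℂ, ‖z‖ < 1 → 1 - a ≤ ‖1 - a * z‖ := by
    intro z hz
    have h1 := norm_sub_norm_le (1 : ℂ) (a * z)
    rw [norm_one, norm_mul, norm_real, Real.norm_of_nonneg ha0.le] at h1
    nlinarith [norm_nonneg z]
  have hden : ∀ z : ℂ, ‖z‖ < 1 → 1 - (a : ℂ) * z ≠ 0 := by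
    intro z hz h0
    have h1 := hre1 z hz
    rw [h0, norm_zero] at h1
    linarith
  have hs4 : ∀ z : ℂ, ‖z‖ < 1 → ‖1 - a * z‖ ^ 2 ≤ 4 := by
    intro z hz
    have h1 := norm_sub_le (1 : ℂ) (a * z)
    rw [norm_one, norm_mul, norm_real, Real.norm_of_nonneg ha0.le] at h1
    have h2 : ‖1 - a * z‖ ≤ 2 := by nlinarith [norm_nonneg z]
    nlinarith [norm_nonneg (1 - a * z)]
  have hspos : ∀ z : ℂ, ‖z‖ < 1 → 0 < ‖1 - a * z‖ ^ 2 := by
    intro z hz
    have := hre1 z hz
    have : 0 < ‖1 - a * z‖ := by linarith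
    positivity
  have hz2 : ∀ z : ℂ, ‖z‖ < 1 → ‖z‖ ^ 2 < 1 := by
    intro z hz
    nlinarith [norm_nonneg z]
  -- the functions
  set F : ℂ → ℂ := fun z => cexp (-(2 * η : ℝ) * ((1 + a * z) / (1 - a * z))) with hF
  set B : ℂ → ℂ := fun z => (z - a) / (1 - a * z) with hB
  have hFn : ∀ z, ‖F z‖ = Real.exp (-(2 * η * ((1 - a ^ 2 * ‖z‖ ^ 2) / ‖1 - a * z‖ ^ 2))) := by
    intro z
    rw [hF]
    simp only
    rw [Complex.norm_exp, ← re_eq, ← ofReal_neg, re_ofReal_mul]
    congr 1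
    ring
  have hBn : ∀ z, ‖z‖ < 1 →
      ‖B z‖ ^ 2 = 1 - (1 - ‖z‖ ^ 2) * (1 - a ^ 2) / ‖1 - a * z‖ ^ 2 := by
    intro z hz
    have h1 := hspos z hz
    rw [hB]
    simp only
    rw [norm_div, div_pow, ← ident a z]
    have h2 : ∀ N S : ℝ, 0 < S → N / S = 1 - (S - N) / S := by
      intro N S hS
      field_simp
      ring
    exact h2 _ _ h1
  have hFd : DifferentiableOn ℂ F (ball 0 1) := by
    intro z hz
    rw [mem_ball_zero_iff] at hz
    have := hden z hz
    apply DifferentiableAt.differentiableWithinAt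
    rw [hF]
    fun_prop (disch := assumption)
  have hBd : DifferentiableOn ℂ B (ball 0 1) := by
    intro z hz
    rw [mem_ball_zero_iff] at hz
    have := hden z hz
    apply DifferentiableAt.differentiableWithinAt
    rw [hB]
    fun_prop (disch := assumption)
  have hF1 : ∀ z : ℂ, ‖z‖ < 1 → ‖F z‖ ≤ 1 := by
    intro z hz
    rw [hFn z, Real.exp_le_one_iff]
    have h1 := hspos z hz
    have h2 := hz2 z hz
    have h3 : 0 ≤ 1 - a ^ 2 * ‖z‖ ^ 2 := by nlinarith [sq_nonneg a]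
    have : 0 ≤ 2 * η * ((1 - a ^ 2 * ‖z‖ ^ 2) / ‖1 - a * z‖ ^ 2) := by positivity
    linarith
  have hB1 : ∀ z : ℂ, ‖z‖ < 1 → ‖B z‖ ≤ 1 := by
    intro z hz
    have h1 := hBn z hz
    have h2 := hspos z hz
    have h3 := hz2 z hz
    have h4 : 0 ≤ (1 - ‖z‖ ^ 2) * (1 - a ^ 2) / ‖1 - a * z‖ ^ 2 := by
      have : 0 ≤ 1 - ‖z‖ ^ 2 := by linarith
      have : 0 ≤ 1 - a ^ 2 := by linarith
      positivity
    nlinarith [norm_nonneg (B z)]
  have hFb : Berg p F := berg hp0 hFd hF1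
  have hBb : Berg p B := berg hp0 hBd hB1
  -- the domination
  have hdom : ∀ z : ℂ, c < ‖z‖ → ‖z‖ < 1 → ‖F z‖ ≤ ‖B z‖ := by
    intro z h1 h2
    have h3 : 1 - ‖z‖ ^ 2 ≤ 2 * η := by
      have : 1 - ‖z‖ < η := by linarith
      nlinarith [norm_nonneg z]
    have h4 := hspos z h2
    have h5 := hz2 z h2
    obtain ⟨S, hS⟩ : ∃ S : ℝ, S = ‖1 - a * z‖ ^ 2 := ⟨_, rfl⟩
    obtain ⟨T, hT⟩ : ∃ T : ℝ, T = 1 - ‖z‖ ^ 2 := ⟨_, rfl⟩
    have hSlow : (64 * η) ^ 2 ≤ S := by
      rw [hS]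
      have h6 := hre1 z h2
      have h7 : 64 * η = 1 - a := by rw [ha]; ring
      rw [h7]
      exact pow_le_pow_left₀ (by linarith) h6 2
    obtain ⟨X, hX⟩ : ∃ X : ℝ, X = T * (1 - a ^ 2) / S := ⟨_, rfl⟩
    have hS0 : 0 < S := by rw [hS]; exact h4
    have hT0 : 0 < T := by rw [hT]; linarith
    have hX0 : 0 ≤ X := by
      rw [hX]
      have : 0 ≤ 1 - a ^ 2 := by linarith
      positivity
    have hX2 : X ≤ 1 / 2 := by
      rw [hX, div_le_iff₀ hS0]
      have h6 : T * (1 - a ^ 2) ≤ 2 * η * (128 * η) :=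
        mul_le_mul (by rw [hT]; exact h3) hn1 (by linarith) (by positivity)
      have h7 : 2 * η * (128 * η) ≤ 1 / 2 * (64 * η) ^ 2 := by nlinarith [sq_nonneg η]
      linarith
    have e1 : ‖B z‖ ^ 2 = 1 - X := by rw [hBn z h2, hX, hT, hS]
    have e2 : ‖F z‖ ^ 2 ≤ Real.exp (-(2 * X)) := by
      rw [hFn z, ← Real.exp_nat_mul]
      apply Real.exp_le_exp.2
      rw [← hS]
      have h6 : X ≤ 2 * η * ((1 - a ^ 2 * ‖z‖ ^ 2) / S) := by
        rw [hX, ← mul_div_assoc]
        apply div_le_div_of_nonneg_right _ hS0.le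
        have h7 : T * (1 - a ^ 2) ≤ 2 * η * (1 - a ^ 2) :=
          mul_le_mul_of_nonneg_right (by rw [hT]; exact h3) (by linarith)
        have h8 : 2 * η * (1 - a ^ 2) ≤ 2 * η * (1 - a ^ 2 * ‖z‖ ^ 2) := by
          apply mul_le_mul_of_nonneg_left _ (by positivity)
          nlinarith [sq_nonneg a]
        linarith
      push_cast
      linarith
    have e3 : Real.exp (-(2 * X)) ≤ 1 - X := by
      rw [Real.exp_neg]
      have h6 := Real.add_one_le_exp (2 * X)
      have h7 : (Real.exp (2 * X))⁻¹ ≤ (2 * X + 1)⁻¹ := inv_anti₀ (by linarith) h6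
      refine h7.trans ?_
      rw [inv_le_iff_one_le_mul₀ (by linarith)]
      nlinarith
    have e4 : ‖F z‖ ^ 2 ≤ ‖B z‖ ^ 2 := by rw [e1]; exact e2.trans e3
    exact le_of_sq_le_sq e4 (norm_nonneg _)
  have hint := int_le hp0 h hFb hBb hdom
  -- the lower bound
  have hlow : Real.exp (-(1 / 4)) * (Real.pi / 2 * (1 - Real.exp (-(√p / 16))) / (√p / 16)) ≤
      ∫ z in ball (0 : ℂ) 1, ‖F z‖ ^ p := by
    have h1 := hR.2.1 (√p / 16) (by positivity)
    rw [← h1, ← integral_const_mul]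
    have hHm : MeasurableSet {z : ℂ | ‖z‖ < 1 ∧ z.re ≤ 0} :=
      (measurableSet_lt measurable_norm measurable_const).inter
        (measurableSet_le measurable_re measurable_const)
    have hHs : {z : ℂ | ‖z‖ < 1 ∧ z.re ≤ 0} ⊆ ball 0 1 := by
      intro z hz
      rw [mem_ball_zero_iff]
      exact hz.1
    have h2 : ∫ z in {z : ℂ | ‖z‖ < 1 ∧ z.re ≤ 0},
        Real.exp (-(1 / 4)) * Real.exp (-(√p / 16 * (1 - ‖z‖ ^ 2))) ≤
        ∫ z in {z : ℂ | ‖z‖ < 1 ∧ z.re ≤ 0}, ‖F z‖ ^ p := by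
      apply setIntegral_mono_on _ (hFb.2.mono_set hHs) hHm
      · intro z hz
        have h3 := hspos z hz.1
        have h4 := hz2 z hz.1
        have h5 : 1 ≤ ‖1 - a * z‖ ^ 2 := by
          have h6 : 1 ≤ (1 - a * z).re := by
            simp only [sub_re, one_re, re_ofReal_mul]
            nlinarith [hz.2]
          have h7 := re_le_norm (1 - a * z)
          nlinarith
        rw [hFn z, ← Real.exp_mul, ← Real.exp_add]
        apply Real.exp_le_exp.2
        have h6 : (1 - a ^ 2 * ‖z‖ ^ 2) / ‖1 - a * z‖ ^ 2 ≤ 1 - a ^ 2 * ‖z‖ ^ 2 := by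
          apply div_le_self _ h5
          nlinarith [sq_nonneg a]
        have h7 : 1 - a ^ 2 * ‖z‖ ^ 2 ≤ 128 * η + (1 - ‖z‖ ^ 2) := by
          nlinarith [sq_nonneg a]
        have h8 : 2 * η * ((1 - a ^ 2 * ‖z‖ ^ 2) / ‖1 - a * z‖ ^ 2) * p ≤
            2 * η * (128 * η + (1 - ‖z‖ ^ 2)) * p := by
          apply mul_le_mul_of_nonneg_right _ hp0.le
          apply mul_le_mul_of_nonneg_left (h6.trans h7) (by positivity)
        have h9 : 2 * η * (128 * η + (1 - ‖z‖ ^ 2)) * p =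
            256 * (p * η ^ 2) + 2 * (p * η) * (1 - ‖z‖ ^ 2) := by ring
        rw [h9, hpη2, hpη] at h8
        linarith
      · apply IntegrableOn.mono_set _ hHs
        apply integ
        · apply Continuous.continuousOn
          fun_prop
        · intro z hz
          have h3 := hz2 z hz
          refine ⟨by positivity, ?_⟩
          rw [← Real.exp_add, Real.exp_le_one_iff]
          have : 0 ≤ √p / 16 * (1 - ‖z‖ ^ 2) := by
            have : 0 ≤ 1 - ‖z‖ ^ 2 := by linarith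
            positivity
          linarith
    refine h2.trans ?_
    apply setIntegral_mono_set hFb.2
    · exact Eventually.of_forall fun z => by simp only [Pi.zero_apply]; positivity
    · exact hHs.eventuallyLE
  -- the upper bound
  have hup : ∫ z in ball (0 : ℂ) 1, ‖B z‖ ^ p ≤
      Real.pi * (1 - Real.exp (-(√p / 4))) / (√p / 4) := by
    rw [← hR.1 (√p / 4) (by positivity)]
    apply setIntegral_mono_on hBb.2 _ measurableSet_ball
    · intro z hz
      rw [mem_ball_zero_iff] at hz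
      have h3 := hspos z hz
      have h4 := hz2 z hz
      have h5 := hs4 z hz
      have h6 : ‖B z‖ ^ 2 ≤ Real.exp (-(16 * η * (1 - ‖z‖ ^ 2))) := by
        rw [hBn z hz]
        have h7 : 16 * η * (1 - ‖z‖ ^ 2) ≤ (1 - ‖z‖ ^ 2) * (1 - a ^ 2) / ‖1 - a * z‖ ^ 2 := by
          rw [le_div_iff₀ h3]
          have h8 : 16 * η * ‖1 - a * z‖ ^ 2 ≤ 1 - a ^ 2 := by nlinarith
          have h9 := mul_le_mul_of_nonneg_left h8 (by linarith : 0 ≤ 1 - ‖z‖ ^ 2)
          linarith
        have h8 := Real.add_one_le_exp (-(16 * η * (1 - ‖z‖ ^ 2)))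
        linarith
      have h7 : ‖B z‖ ^ p = (‖B z‖ ^ 2) ^ (p / 2) := by
        rw [← Real.rpow_natCast, ← Real.rpow_mul (norm_nonneg _)]
        congr 1
        push_cast
        ring
      rw [h7]
      refine (Real.rpow_le_rpow (by positivity) h6 (by positivity)).trans ?_
      rw [← Real.exp_mul]
      apply Real.exp_le_exp.2
      have h8 : -(16 * η * (1 - ‖z‖ ^ 2)) * (p / 2) = -(8 * (p * η) * (1 - ‖z‖ ^ 2)) := by ring
      rw [h8, hpη]
      linarith
    · apply integ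
      · apply Continuous.continuousOn
        fun_prop
      · intro z hz
        have h3 := hz2 z hz
        refine ⟨by positivity, ?_⟩
        rw [Real.exp_le_one_iff]
        have : 0 ≤ √p / 4 * (1 - ‖z‖ ^ 2) := by
          have : 0 ≤ 1 - ‖z‖ ^ 2 := by linarith
          positivity
        linarith
  -- comparison
  have k1 : Real.pi * (1 - Real.exp (-(√p / 4))) / (√p / 4) ≤ 4 * Real.pi / √p := by
    rw [div_le_div_iff₀ (by positivity) hs0]
    have h1 := Real.exp_pos (-(√p / 4))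
    have h2 : Real.pi * (1 - Real.exp (-(√p / 4))) ≤ Real.pi := by
      nlinarith [Real.pi_pos]
    nlinarith
  have k2 : (3 / 4 : ℝ) ≤ Real.exp (-(1 / 4)) := by
    have := Real.add_one_le_exp (-(1 / 4 : ℝ))
    linarith
  have k3 : Real.exp (-(√p / 16)) ≤ 1 / 4 := by
    have h1 : Real.exp (-(√p / 16)) ≤ Real.exp (-2) := by
      apply Real.exp_le_exp.2
      linarith
    refine h1.trans ?_
    rw [Real.exp_neg, inv_le_comm₀ (Real.exp_pos _) (by norm_num)]
    have h2 : Real.exp 2 = Real.exp 1 * Real.exp 1 := by rw [← Real.exp_add]; norm_num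
    rw [h2]
    have h3 := Real.add_one_le_exp (1 : ℝ)
    norm_num
    nlinarith
  have k4 : 9 / 2 * Real.pi / √p ≤
      Real.exp (-(1 / 4)) * (Real.pi / 2 * (1 - Real.exp (-(√p / 16))) / (√p / 16)) := by
    have h1 : 3 / 4 * (Real.pi / 2 * (3 / 4) / (√p / 16)) = 9 / 2 * Real.pi / √p := by
      field_simp
      norm_num
    rw [← h1]
    apply mul_le_mul k2 _ (by positivity) (Real.exp_pos _).le
    apply div_le_div_of_nonneg_right _ (by positivity)
    apply mul_le_mul_of_nonneg_left _ (by positivity)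
    linarith
  have k5 : 4 * Real.pi / √p < 9 / 2 * Real.pi / √p := by
    apply div_lt_div_of_pos_right _ hs0
    nlinarith [Real.pi_pos]
  linarith

end UPAux

open UPAux

theorem up (hR : S_RAD) : S_UP := by
  intro p c hp hc0 hc1 h
  rcases le_total p 1024 with hp2 | hp2
  · exact small hR hp hp2 hc0 hc1 h
  · exact large hR hp2 h

end Pool.Agent.KRB
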