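import Pool.Agent.KRB.Stmts

/-!
# The zero-free case
-/

set_option autoImplicit false

namespace Pool.Agent.KRB

open Complex MeasureTheory Set Metric

namespace ZFAux

theorem exists_radius (g : ℂ → ℂ) (c : ℝ) (hc0 : 0 < c) (hc1 : c < 1)
    (hg : DifferentiableOn ℂ g (ball 0 1)) (h : ∀ z : ℂ, ‖z‖ ≤ c → g z ≠ 0) :
    ∃ c' : ℝ, c < c' ∧ c' < 1 ∧ ∀ z : ℂ, ‖z‖ ≤ c' → g z ≠ 0 := by
  have hV : IsOpen (ball (0 : ℂ) 1 ∩ g ⁻¹' {0}ᶜ) :=
    hg.continuousOn.isOpen_inter_preimage isOpen_ball isClosed_singleton.isOpen_compl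
  have hsub : closedBall (0 : ℂ) c ⊆ ball (0 : ℂ) 1 ∩ g ⁻¹' {0}ᶜ := by
    intro z hz
    rw [mem_closedBall_zero_iff] at hz
    exact ⟨mem_ball_zero_iff.2 (lt_of_le_of_lt hz hc1), h z hz⟩
  obtain ⟨δ, hδ, hδV⟩ := (isCompact_closedBall (0 : ℂ) c).exists_thickening_subset_open hV hsub
  refine ⟨min (c + δ / 2) ((1 + c) / 2), lt_min (by linarith) (by linarith),
    lt_of_le_of_lt (min_le_right _ _) (by linarith), ?_⟩
  intro z hz
  have hz1 : ‖z‖ < c + δ := lt_of_le_of_lt (hz.trans (min_le_left _ _)) (by linarith)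
  have h1 : z ∈ thickening δ (closedBall (0 : ℂ) c) := by
    rw [thickening_closedBall hδ hc0.le, mem_ball_zero_iff]
    linarith
  exact (hδV h1).2

end ZFAux

open ZFAux in
theorem zf : S_ZF := by
  intro f g c hc0 hc1 hf hg hfg hz0 z hz
  rcases lt_or_ge c ‖z‖ with hcz | hcz
  · exact hfg z hcz hz
  obtain ⟨c', h1, h2, h3⟩ := exists_radius g c hc0 hc1 hg hz0
  have hc'0 : 0 < c' := hc0.trans h1
  have hsub : closedBall (0 : ℂ) c' ⊆ ball 0 1 := closedBall_subset_ball h2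
  have hd : DiffContOnCl ℂ (fun w => f w / g w) (ball 0 c') := by
    apply DifferentiableOn.diffContOnCl
    rw [closure_ball _ hc'0.ne']
    exact (hf.mono hsub).div (hg.mono hsub) fun w hw =>
      h3 w (mem_closedBall_zero_iff.1 hw)
  have hb : ∀ w ∈ frontier (ball (0 : ℂ) c'), ‖f w / g w‖ ≤ 1 := by
    intro w hw
    rw [frontier_ball _ hc'0.ne', mem_sphere_zero_iff_norm] at hw
    have hg0 : g w ≠ 0 := h3 w hw.le
    rw [norm_div, div_le_one (norm_pos_iff.2 hg0)]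
    exact hfg w (by rw [hw]; exact h1) (by rw [hw]; exact h2)
  have hzc : z ∈ closure (ball (0 : ℂ) c') := subset_closure
    (mem_ball_zero_iff.2 (lt_of_le_of_lt hcz h1))
  have key := Complex.norm_le_of_forall_mem_frontier_norm_le isBounded_ball hd hb hzc
  have hg0 : g z ≠ 0 := hz0 z hcz
  rw [norm_div, div_le_one (norm_pos_iff.2 hg0)] at key
  exact key

end Pool.Agent.KRB
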